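import Pool.Agent.Q23.AQ.Comb
import Pool.Agent.Q23.AQ.Ell
import Pool.Agent.Q23.AQ.Few
import Pool.Agent.Q23.AQ.LiC
import Pool.Agent.TH818.AP.LiInd
import Pool.Agent.TH818.AP.LiLoc

/-!
# Equality of periods at complex algebraic parameters: an errorless test with explicit precision

Let `c < α'_1, …, α'_M < 0 < α_1, …, α_N ≤ a < b ≤ γ_1, …, γ_N < 1 < γ'_1, …, γ'_M` and `x_1, …, x_k` be real numbers, the `x_j`
distinct with `c + x_j > 0`. To a complex algebraic number `z` in the unit disc cut along the real axis outside of `(a, b)` we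
attach the periods `K(λ)`, `E(λ)`, `K(1 - λ)` of the Legendre curves with `λ = (z - α_j) / (γ_j - α_j)` and with
`λ = (z - α'_i) / (γ'_i - α'_i)`, the logarithms `log (z + x_j)`, `log z` and the polylogarithms `Li_1(z)`, …, `Li_w(z)`.

An expression is a polynomial in these numbers, for an `n`-tuple of parameters `z` in a number field `F`, with coefficients
`∑ ξ_a c_a`, where the `ξ_a` are given complex constants (for instance `1`, or the powers of `2 π i`) and the `c_a` are integers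
of `F`. The test compares the expressions formally and their approximate values, it is never wrong, and it gives an answer for
all pairs of expressions of bounded degree with coefficients of polynomial height, with a precision which is polynomial in
the height and in the smallest nonzero coefficient, for all but `C T ^ ε |X| ^ (n - 1)` of the `n`-tuples from any finite set
`X` of algebraic numbers of `F` of height at most `T`, uniformly for all number fields of bounded degree. For expressions with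
coefficients in the ring of integers of `F` the precision is a power of `T`.
-/

set_option autoImplicit false

open Set Filter Topology NumberField

namespace Pool.Agent.Results.MP_bbe012_lc.ComplexParameters

/-- The complete elliptic integral of the first kind, `K(s) = ∫_0^{π/2} (1 - s sin²θ)^(-1/2) dθ`. -/
noncomputable def K (s : ℂ) : ℂ := ∫ θ in (0 : ℝ)..(Real.pi / 2), (1 - s * (Real.sin θ : ℂ) ^ 2) ^ (-(1 / 2) : ℂ)

/-- The complete elliptic integral of the second kind, `E(s) = ∫_0^{π/2} (1 - s sin²θ)^(1/2) dθ`. -/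
noncomputable def E (s : ℂ) : ℂ := ∫ θ in (0 : ℝ)..(Real.pi / 2), (1 - s * (Real.sin θ : ℂ) ^ 2) ^ (1 / 2 : ℂ)

/-- The polylogarithm `Li_k(z) = ∑_{n ≥ 1} z ^ n / n ^ k`, `|z| < 1`. -/
noncomputable def Li (k : ℕ) (z : ℂ) : ℂ := ∑' n : ℕ, z ^ (n + 1) / ((n : ℂ) + 1) ^ k

/-- The three functions `K(s)`, `E(s)`, `K(1 - s)` of `s = (z - α) / (γ - α)`. -/
noncomputable def leg (α γ : ℝ) (i : Fin 3) (z : ℂ) : ℂ :=
  ![K ((z - α) / (γ - α)), E ((z - α) / (γ - α)), K (1 - (z - α) / (γ - α))] i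

/-- The names of the `3 N + 3 M + k + w + 1` functions. -/
abbrev Name (N M k w : ℕ) : Type := (Fin N × Fin 3) ⊕ (((Fin M × Fin 3) ⊕ Fin k) ⊕ Fin (w + 1))

/-- The functions: `K(s)`, `E(s)`, `K(1 - s)` for `s = (z - α_j) / (γ_j - α_j)` and for `s = (z - α'_j) / (γ'_j - α'_j)`;
`log (z + x_j)`; `log z`, `Li_1(z)`, …, `Li_w(z)`. -/
noncomputable def fn {N M k w : ℕ} (α γ : Fin N → ℝ) (α' γ' : Fin M → ℝ) (x : Fin k → ℝ) (y : Name N M k w) (z : ℂ) : ℂ :=
  match y with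
  | Sum.inl (j, i) => leg (α j) (γ j) i z
  | Sum.inr (Sum.inl (Sum.inl (j, i))) => leg (α' j) (γ' j) i z
  | Sum.inr (Sum.inl (Sum.inr j)) => Complex.log (z + x j)
  | Sum.inr (Sum.inr k) => if (k : ℕ) = 0 then Complex.log z else Li k z

/-- The open unit disc cut along the real axis outside of `(a, b)`. -/
def Cut (a b : ℝ) : Set ℂ := {z | ‖z‖ < 1 ∧ (z.im ≠ 0 ∨ (a < z.re ∧ z.re < b))}

/-- An expression: `g` polynomials in `n` variables for every name with coefficients in the ring of integers of `F`. -/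
abbrev Expr (g n : ℕ) (κ F : Type) [Field F] [NumberField F] : Type := Fin g → MvPolynomial (Fin n × κ) (𝓞 F)

/-- The polynomial with complex coefficients `∑ ξ_a P_a`. -/
noncomputable def poly {g n : ℕ} {κ F : Type} [Field F] [NumberField F] (ι : F →+* ℂ) (ξ : Fin g → ℂ)
    (P : Expr g n κ F) : MvPolynomial (Fin n × κ) ℂ :=
  ∑ a, MvPolynomial.C (ξ a) * MvPolynomial.map (ι.comp (algebraMap (𝓞 F) F)) (P a)

/-- The value of the expression at the `n`-tuple `q` of elements of `F`, for the functions `f`. -/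
noncomputable def value {g n : ℕ} {κ F : Type} [Field F] [NumberField F] (f : κ → ℂ → ℂ) (ι : F →+* ℂ) (ξ : Fin g → ℂ)
    (q : Fin n → F) (P : Expr g n κ F) : ℂ :=
  MvPolynomial.aeval (fun x : Fin n × κ => f x.2 (ι (q x.1))) (poly ι ξ P)

open Classical in
/-- The test. Input: two expressions and approximations `v₁`, `v₂` of their values with error at most `δ`. It answers
`true` (equal) if they are equal as polynomials with complex coefficients, `false` (not equal) if they are not and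
`‖v₁ - v₂‖ > 2 δ`, and `none` (no answer) otherwise. -/
noncomputable def test {g n : ℕ} {κ F : Type} [Field F] [NumberField F] (ι : F →+* ℂ) (ξ : Fin g → ℂ)
    (P₁ P₂ : Expr g n κ F) (v₁ v₂ : ℂ) (δ : ℝ) : Option Bool :=
  if poly ι ξ P₁ = poly ι ξ P₂ then some true else if 2 * δ < ‖v₁ - v₂‖ then some false else none

/-- Expressions of degree at most `d` in each variable, all conjugates of whose coefficients are at most `H` in absolute
value. -/
def Bounded {g n : ℕ} {κ F : Type} [Field F] [NumberField F] (d : ℕ) (H : ℝ) (P : Expr g n κ F) : Prop :=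
  ∀ a, (∀ x, (P a).degreeOf x ≤ d) ∧ ∀ s, ∀ φ : F →+* ℂ, ‖φ (((P a).coeff s : 𝓞 F) : F)‖ ≤ H

/-- The `n`-tuples of elements of the finite set `X` at which the test with precision `δ` gives no answer for some pair of
bounded expressions and some admissible approximations. -/
def NoAnswer {κ : Type} (f : κ → ℂ → ℂ) (n d : ℕ) {g : ℕ} (F : Type) [Field F] [NumberField F] (ι : F →+* ℂ)
    (ξ : Fin g → ℂ) (X : Finset F) (H δ : ℝ) : Set (Fin n → F) :=
  {q | (∀ h, q h ∈ X) ∧ ∃ P₁ P₂ : Expr g n κ F, Bounded d H P₁ ∧ Bounded d H P₂ ∧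
    ∃ v₁ v₂ : ℂ, ‖v₁ - value f ι ξ q P₁‖ ≤ δ ∧ ‖v₂ - value f ι ξ q P₂‖ ≤ δ ∧ test ι ξ P₁ P₂ v₁ v₂ δ = none}

/-- All nonzero numbers `∑ ξ_a ι(c_a)`, where the `c_a` are integers of `F` all of whose conjugates have absolute value at most
`H`, have absolute value at least `μ`. -/
def LowerBound {g : ℕ} (F : Type) [Field F] [NumberField F] (ι : F →+* ℂ) (ξ : Fin g → ℂ) (H μ : ℝ) : Prop :=
  ∀ c : Fin g → 𝓞 F, (∀ a (φ : F →+* ℂ), ‖φ (c a)‖ ≤ H) → ∑ a, ξ a * ι (c a) ≠ 0 → μ ≤ ‖∑ a, ξ a * ι (c a)‖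

/-- The elements of `X` are in `D` and are quotients of two integers of `F` with all conjugates at most `T`. -/
def Admissible (D : Set ℂ) (F : Type) [Field F] [NumberField F] (ι : F →+* ℂ) (T : ℝ) (X : Finset F) : Prop :=
  ∀ x ∈ X, ι x ∈ D ∧ ∃ a b : 𝓞 F, b ≠ 0 ∧ (∀ φ : F →+* ℂ, ‖φ a‖ ≤ T ∧ ‖φ b‖ ≤ T) ∧ x = a / b

section proofs

open Pool.Agent.TH818.AP Pool.Agent.TH659.AQ

theorem li_an (k : ℕ) {z : ℂ} (hz : ‖z‖ < 1) : AnalyticAt ℂ (Li k) z := by
  obtain ⟨r, h1, h2⟩ := exists_between hz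
  have hr : 0 ≤ r := (norm_nonneg z).trans h1.le
  have hd : DifferentiableOn ℂ (fun w : ℂ => ∑' n : ℕ, w ^ (n + 1) / ((n : ℂ) + 1) ^ k) (Metric.ball 0 r) := by
    refine Complex.differentiableOn_tsum_of_summable_norm (u := fun n : ℕ => r ^ (n + 1)) ?_ ?_ Metric.isOpen_ball ?_
    · exact (summable_nat_add_iff 1).2 (summable_geometric_of_lt_one hr h2)
    · intro n
      fun_prop
    · intro n w hw
      rw [mem_ball_zero_iff] at hw
      rw [norm_div, norm_pow, norm_pow]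
      have h3 : ‖((n : ℂ) + 1)‖ = (n : ℝ) + 1 := by
        have : ((n : ℂ) + 1) = (((n : ℝ) + 1 : ℝ) : ℂ) := by push_cast; rfl
        rw [this, Complex.norm_real, Real.norm_of_nonneg (by positivity)]
      rw [h3]
      have h4 : (1 : ℝ) ≤ ((n : ℝ) + 1) ^ k := one_le_pow₀ (by linarith [Nat.cast_nonneg (α := ℝ) n])
      calc ‖w‖ ^ (n + 1) / ((n : ℝ) + 1) ^ k ≤ ‖w‖ ^ (n + 1) / 1 := by gcongr
        _ = ‖w‖ ^ (n + 1) := div_one _
        _ ≤ r ^ (n + 1) := by gcongr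
  exact hd.analyticOnNhd Metric.isOpen_ball z (by rwa [mem_ball_zero_iff])

theorem li_real (k : ℕ) (t : ℝ) : Li k (t : ℂ) = ((TH818.AP.Li k t : ℝ) : ℂ) := by
  unfold Li TH818.AP.Li
  rw [Complex.ofReal_tsum]
  refine tsum_congr fun n => ?_
  push_cast
  rfl

theorem leg_eq (α γ : ℝ) (i : Fin 3) (z : ℂ) : leg α γ i z = Y124.fC i ((z - α) / (γ - α)) := by
  fin_cases i <;> rfl

theorem leg_real {α γ t : ℝ} (h1 : α < t) (h2 : t < γ) (i : Fin 3) :
    leg α γ i (t : ℂ) = ((TH818.AP.KC α γ i t : ℝ) : ℂ) := by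
  rw [leg_eq]
  have h3 : 0 < γ - α := by linarith
  have h4 : ((t : ℂ) - α) / (γ - α) = (((t - α) / (γ - α) : ℝ) : ℂ) := by push_cast; rfl
  have h5 : 0 < (t - α) / (γ - α) := div_pos (by linarith) h3
  have h6 : (t - α) / (γ - α) < 1 := by rw [div_lt_one h3]; linarith
  rw [h4, Y124.fC_real i _ h5 h6]
  congr 1
  have h7 : 1 - (t - α) / (γ - α) = (γ - t) / (γ - α) := by
    field_simp
    ring
  fin_cases i
  · simp [TH818.AP.KC]
  · simp [TH818.AP.KC]
  · simp [TH818.AP.KC, h7]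

theorem cut_star {a b : ℝ} (hab : a < b) (ha : 0 ≤ a) (hb : b ≤ 1) :
    StarConvex ℝ (((a + b) / 2 : ℝ) : ℂ) (Cut a b) := by
  intro z hz x y hx hy hxy
  obtain ⟨h1, h2⟩ := hz
  have hc : ‖(((a + b) / 2 : ℝ) : ℂ)‖ < 1 := by
    rw [Complex.norm_real, Real.norm_of_nonneg (by linarith)]
    linarith
  refine ⟨?_, ?_⟩
  · have h3 := (convex_ball (0 : ℂ) 1) (mem_ball_zero_iff.2 hc) (mem_ball_zero_iff.2 h1) hx hy hxy
    exact mem_ball_zero_iff.1 h3
  · have him : (x • (((a + b) / 2 : ℝ) : ℂ) + y • z).im = y * z.im := by simp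
    have hre : (x • (((a + b) / 2 : ℝ) : ℂ) + y • z).re = x * ((a + b) / 2) + y * z.re := by
      simp
    rw [him, hre]
    rcases h2 with h2 | ⟨h2, h3⟩
    · rcases hy.eq_or_lt with h4 | h4
      · right
        have hx1 : x = 1 := by linarith
        subst h4
        rw [hx1]
        constructor <;> linarith
      · left
        exact mul_ne_zero h4.ne' h2
    · right
      have hx' : x = 1 - y := by linarith
      subst hx'
      constructor
      · nlinarith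
      · nlinarith

theorem cut_mem {a b : ℝ} {t : ℝ} (ha : 0 ≤ a) (hb : b ≤ 1) (h1 : a < t) (h2 : t < b) : (t : ℂ) ∈ Cut a b := by
  refine ⟨?_, Or.inr ?_⟩
  · rw [Complex.norm_real, Real.norm_of_nonneg (by linarith)]
    linarith
  · simpa using ⟨h1, h2⟩

theorem cut_pre {a b : ℝ} (hab : a < b) (ha : 0 ≤ a) (hb : b ≤ 1) : IsPreconnected (Cut a b) :=
  ((cut_star hab ha hb).isPathConnected (cut_mem ha hb (by linarith) (by linarith))).isConnected.isPreconnected

theorem leg_dom {a b α γ : ℝ} (h1 : α ≤ a) (h2 : b ≤ γ) (hab : a < b) {z : ℂ} (hz : z ∈ Cut a b) :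
    (z - α) / (γ - α) ∈ Y124.Dom := by
  have h3 : 0 < γ - α := by linarith
  have hs : ((γ : ℂ) - α) = (((γ - α : ℝ)) : ℂ) := by push_cast; rfl
  have hre : ((z - α) / (γ - α)).re = (z.re - α) / (γ - α) := by
    rw [hs, Complex.div_ofReal_re]
    simp
  have him : ((z - α) / (γ - α)).im = z.im / (γ - α) := by
    rw [hs, Complex.div_ofReal_im]
    simp
  constructor
  · rw [Complex.mem_slitPlane_iff, hre, him]
    rcases hz.2 with h4 | ⟨h4, h5⟩
    · right
      exact div_ne_zero h4 h3.ne'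
    · left
      exact div_pos (by linarith) h3
  · rw [Complex.mem_slitPlane_iff]
    have h6 : (1 - (z - α) / (γ - α)).re = (γ - z.re) / (γ - α) := by
      rw [Complex.sub_re, hre, Complex.one_re]
      field_simp
      ring
    have h7 : (1 - (z - α) / (γ - α)).im = -(z.im / (γ - α)) := by
      rw [Complex.sub_im, him, Complex.one_im, zero_sub]
    rw [h6, h7]
    rcases hz.2 with h4 | ⟨h4, h5⟩
    · right
      exact neg_ne_zero.2 (div_ne_zero h4 h3.ne')
    · left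
      exact div_pos (by linarith) h3

theorem leg_an {a b α γ : ℝ} (h1 : α ≤ a) (h2 : b ≤ γ) (hab : a < b) (i : Fin 3) {z : ℂ} (hz : z ∈ Cut a b) :
    AnalyticAt ℂ (leg α γ i) z := by
  have h4 : leg α γ i = fun z => Y124.fC i ((z - α) / (γ - α)) := by
    funext z
    exact leg_eq α γ i z
  rw [h4]
  have h5 := Y124.fC_analytic i _ (leg_dom h1 h2 hab hz)
  exact AnalyticAt.comp (f := fun z : ℂ => (z - α) / (γ - α)) h5
    ((analyticAt_id.sub analyticAt_const).mul analyticAt_const)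

/-- the logarithms alone -/
theorem log_base (d k : ℕ) (x : Fin k → ℝ) (hx : Function.Injective x) (a b : ℝ) (hax : ∀ j, 0 < a + x j)
    (hab : a < b) : RIndep (fun (e : Fin k → Fin (d + 1)) (t : ℝ) => ∏ j, lf x j t ^ (e j : ℕ)) a b := by
  intro p hp
  obtain ⟨c, hc1, hc2⟩ : ∃ c : ℝ, c < a ∧ ∀ j, c < -x j := by
    refine ⟨a - 1 - ∑ j, |a + x j|, ?_, fun j => ?_⟩
    · have : 0 ≤ ∑ j, |a + x j| := Finset.sum_nonneg fun j _ => abs_nonneg _
      linarith
    · have h1 : |a + x j| ≤ ∑ j, |a + x j| :=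
        Finset.single_le_sum (f := fun j => |a + x j|) (fun j _ => abs_nonneg _) (Finset.mem_univ j)
      have h2 := le_abs_self (a + x j)
      linarith
  have h1 := Q23.AQ.logC d k c x hx hc2 a b hax hc1 hab (fun e t => (p e).eval t)
    (fun e t _ => AnalyticOnNhd.eval_polynomial _ t (mem_univ _)) (by
      intro t ht
      have h2 := hp t ht
      exact h2)
  funext e
  have h3 : ∀ t, c < t → (p e).eval t = 0 := h1 e
  refine Polynomial.eq_zero_of_infinite_isRoot _ ((Set.Ioi_infinite c).mono ?_)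
  intro t ht
  exact h3 t ht

/-- independence of the functions on a real interval -/
theorem ind_real {N M k : ℕ} (w : ℕ) (α γ : Fin N → ℝ) (hα : StrictAnti α) (hγ : StrictMono γ) (hα0 : ∀ j, 0 < α j)
    (hγ1 : ∀ j, γ j < 1) (α' γ' : Fin M → ℝ) (hα' : StrictAnti α') (hγ' : StrictMono γ') (hα'0 : ∀ j, α' j < 0)
    (hγ'1 : ∀ j, 1 < γ' j) (x : Fin k → ℝ) (hx : Function.Injective x) (c : ℝ) (hc : c < 0) (hcα : ∀ j, c < α' j)
    (hcx : ∀ j, 0 < c + x j) (a b : ℝ) (ha : 0 < a) (hab : a < b) (hb : b < 1) (h : ∀ j, α j < a ∧ b < γ j) (d : ℕ) :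
    RIndep (fun (e : Name N M k w → Fin (d + 1)) (t : ℝ) =>
      ∏ p, Sum.elim (fun z : Fin N × Fin 3 => KC (α z.1) (γ z.1) z.2)
        (Sum.elim (Sum.elim (fun z : Fin M × Fin 3 => KC (α' z.1) (γ' z.1) z.2) (lf x))
          (fun k : Fin (w + 1) => pl (k : ℕ))) p t ^ (e p : ℕ)) a b := by
  have hlf : ∀ j t, c < t → AnalyticAt ℝ (TH659.AQ.lf x j) t := by
    intro j t ht
    apply TH659.AQ.lf_an
    linarith [hcx j]
  obtain ⟨y, hy1, hyγ⟩ : ∃ y : ℝ, 1 ≤ y ∧ ∀ j, γ' j < y := by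
    refine ⟨1 + ∑ j, |γ' j|, ?_, fun j => ?_⟩
    · have : 0 ≤ ∑ j, |γ' j| := Finset.sum_nonneg fun j _ => abs_nonneg _
      linarith
    · have h1 : |γ' j| ≤ ∑ j, |γ' j| :=
        Finset.single_le_sum (f := fun j => |γ' j|) (fun j _ => abs_nonneg _) (Finset.mem_univ j)
      have h2 := le_abs_self (γ' j)
      linarith
  have h1 : ∀ d a' b' : _, a ≤ a' → a' < b' → b' ≤ b →
      TH818.AP.RIndep (fun (e : ((Fin M × Fin 3) ⊕ Fin k) → Fin (d + 1)) (t : ℝ) =>
        ∏ p, Sum.elim (fun z : Fin M × Fin 3 => TH818.AP.KC (α' z.1) (γ' z.1) z.2) (TH659.AQ.lf x) p t ^ (e p : ℕ)) a' b' := by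
    intro d a' b' ha' hab' hb'
    refine Q23.AQ.comb_leg (TH659.AQ.lf x) c y a' b' (by linarith) hab' (by linarith) (fun j t ht => hlf j t ht.1) ?_
      α' γ' hα' hγ' (fun j => by linarith [hα'0 j, hγ'1 j]) hcα hyγ
      (fun j => ⟨by linarith [hα'0 j], by linarith [hγ'1 j]⟩)
    intro a'' b'' ha'' hab'' hb''
    exact log_base d k x hx a'' b'' (fun j => by linarith [hcx j]) hab''
  set u1 : ((Fin M × Fin 3) ⊕ Fin k) → ℝ → ℝ :=
    Sum.elim (fun z : Fin M × Fin 3 => TH818.AP.KC (α' z.1) (γ' z.1) z.2) (TH659.AQ.lf x) with hu1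
  have hu1an : ∀ p, ∀ t ∈ Icc (0 : ℝ) 1, AnalyticAt ℝ (u1 p) t := by
    rintro (z | j) t ht
    · exact TH818.AP.kc_an _ _ (by linarith [hα'0 z.1, hγ'1 z.1]) z.2 t ((hα'0 z.1).trans_le ht.1)
        (lt_of_le_of_lt ht.2 (hγ'1 z.1))
    · exact hlf j t (hc.trans_le ht.1)
  have h2 : ∀ d a' b' : _, a ≤ a' → a' < b' → b' ≤ b →
      TH818.AP.RIndep (fun (e : (((Fin M × Fin 3) ⊕ Fin k) ⊕ Fin (w + 1)) → Fin (d + 1)) (t : ℝ) =>
        ∏ p, Sum.elim u1 (fun k : Fin (w + 1) => TH818.AP.pl (k : ℕ)) p t ^ (e p : ℕ)) a' b' := by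
    intro d
    exact Q23.AQ.comb_li u1 a b ha hab hb hu1an (fun a' b' ha' hab' hb' => h1 d a' b' ha' hab' hb')
  set u2 : (((Fin M × Fin 3) ⊕ Fin k) ⊕ Fin (w + 1)) → ℝ → ℝ :=
    Sum.elim u1 (fun k : Fin (w + 1) => TH818.AP.pl (k : ℕ)) with hu2
  have hu2an : ∀ p, ∀ t ∈ Ioo (0 : ℝ) 1, AnalyticAt ℝ (u2 p) t := by
    rintro (z | k) t ht
    · exact hu1an z t ⟨ht.1.le, ht.2.le⟩
    · show AnalyticAt ℝ (fun t => TH818.AP.pl (k : ℕ) t) t
      simp only [TH818.AP.pl]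
      by_cases hk : (k : ℕ) = 0
      · simp only [hk, if_true]
        exact analyticAt_log ht.1
      · simp only [hk, if_false]
        exact TH818.AP.liAn _ t ⟨by linarith [ht.1], ht.2⟩
  refine Q23.AQ.comb_leg u2 0 1 a b ha.le hab hb.le hu2an ?_ α γ hα hγ
    (fun j => (h j).1.trans (hab.trans (h j).2)) hα0 hγ1 (fun j => ⟨(h j).1.le, (h j).2.le⟩)
  intro a' b' ha' hab' hb'
  exact h2 d a' b' ha' hab' hb'

/-- the theorem on few exceptions for the functions `fn` at complex points -/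
theorem few {N M k : ℕ} (w : ℕ) (α γ : Fin N → ℝ) (hα : StrictAnti α) (hγ : StrictMono γ) (hα0 : ∀ j, 0 < α j)
    (hγ1 : ∀ j, γ j < 1) (α' γ' : Fin M → ℝ) (hα' : StrictAnti α') (hγ' : StrictMono γ') (hα'0 : ∀ j, α' j < 0)
    (hγ'1 : ∀ j, 1 < γ' j) (x : Fin k → ℝ) (hx : Function.Injective x) (c : ℝ) (hc : c < 0) (hcα : ∀ j, c < α' j)
    (hcx : ∀ j, 0 < c + x j) (a b : ℝ) (ha : 0 ≤ a) (hab : a < b) (hb : b ≤ 1) (h : ∀ j, α j ≤ a ∧ b ≤ γ j)
    (D : Set ℂ) (hD : IsCompact D) (hDc : D ⊆ Cut a b) (m n g d : ℕ) (A ε : ℝ) (hε : 0 < ε) :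
    ∃ B C T₀ : ℝ, ∀ (F : Type) [Field F] [NumberField F], Module.finrank ℚ F ≤ m → ∀ (ι : F →+* ℂ) (ξ : Fin g → ℂ)
      (T : ℝ), T₀ ≤ T → ∀ X : Finset F, Admissible D F ι T X →
        (({q : Fin n → F | (∀ h, q h ∈ X) ∧ ∃ P : MvPolynomial (Fin n × Name N M k w) ℂ, (∀ x, P.degreeOf x ≤ d) ∧
          (∀ s, ∃ c : Fin g → 𝓞 F, (∀ a (φ : F →+* ℂ), ‖φ (c a)‖ ≤ T ^ A) ∧ P.coeff s = ∑ a, ξ a * ι (c a)) ∧
          ∃ s₀, P.coeff s₀ ≠ 0 ∧
            ‖MvPolynomial.aeval (fun y : Fin n × Name N M k w => fn α γ α' γ' x y.2 (ι (q y.1))) P‖ ≤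
              T ^ (-B) * ‖P.coeff s₀‖}.ncard : ℕ) : ℝ) ≤ C * T ^ ε * (X.card : ℝ) ^ (n - 1) := by
  -- a smaller interval
  set a' : ℝ := (2 * a + b) / 3 with ha'
  set b' : ℝ := (a + 2 * b) / 3 with hb'
  have h1 : a < a' := by rw [ha']; linarith
  have h2 : a' < b' := by rw [ha', hb']; linarith
  have h3 : b' < b := by rw [hb']; linarith
  have hind := ind_real w α γ hα hγ hα0 hγ1 α' γ' hα' hγ' hα'0 hγ'1 x hx c hc hcα hcx a' b' (by linarith) h2
    (by linarith) (fun j => ⟨by linarith [(h j).1], by linarith [(h j).2]⟩)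
  have hout : ∀ j, α' j ≤ a ∧ b ≤ γ' j := fun j => ⟨by linarith [hα'0 j], by linarith [hγ'1 j]⟩
  have hxpos : ∀ j, 0 < x j := fun j => by linarith [hcx j]
  have han : ∀ y, ∀ t ∈ Cut a b, AnalyticAt ℂ (fn (w := w) α γ α' γ' x y) t := by
    rintro (⟨j, i⟩ | (⟨j, i⟩ | j) | k) t ht
    · exact leg_an (h j).1 (h j).2 hab i ht
    · exact leg_an (hout j).1 (hout j).2 hab i ht
    · have h4 : fn (w := w) α γ α' γ' x (Sum.inr (Sum.inl (Sum.inr j))) = fun z => Complex.log (z + x j) := rfl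
      rw [h4]
      refine (analyticAt_id.add analyticAt_const).clog ?_
      show t + (x j : ℂ) ∈ Complex.slitPlane
      rw [Complex.mem_slitPlane_iff]
      rcases ht.2 with h5 | ⟨h5, h6⟩
      · right
        simpa using h5
      · left
        simp only [Complex.add_re, Complex.ofReal_re]
        linarith [hxpos j]
    · by_cases hk : (k : ℕ) = 0
      · have h4 : fn (w := w) α γ α' γ' x (Sum.inr (Sum.inr k)) = fun z => Complex.log z := by
          funext z
          simp [fn, hk]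
        rw [h4]
        refine analyticAt_id.clog ?_
        rw [Complex.mem_slitPlane_iff]
        rcases ht.2 with h5 | ⟨h5, h6⟩
        · exact Or.inr h5
        · exact Or.inl (ha.trans_lt h5)
      · have h4 : fn (w := w) α γ α' γ' x (Sum.inr (Sum.inr k)) = Li k := by
          funext z
          simp [fn, hk]
        rw [h4]
        exact li_an k ht.1
  refine Q23.AQ.fewC (fn (w := w) α γ α' γ' x) D hD (fun y t ht => han y t (hDc ht)) (fun t ht => ?_) m n g d A ε hε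
  refine Q23.AQ.locInd_real _ (fn (w := w) α γ α' γ' x) (Cut a b) (cut_pre hab ha hb) han a' b' ?_ ?_ hind t (hDc ht)
  · intro t ht
    exact cut_mem ha hb (by linarith [ht.1]) (by linarith [ht.2])
  · rintro (⟨j, i⟩ | (⟨j, i⟩ | j) | k) t ht
    · exact leg_real (by linarith [ht.1, (h j).1]) (by linarith [ht.2, (h j).2]) i
    · exact leg_real (by linarith [ht.1, (hout j).1]) (by linarith [ht.2, (hout j).2]) i
    · show Complex.log ((t : ℂ) + x j) = ((TH659.AQ.lf x j t : ℝ) : ℂ)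
      rw [← Complex.ofReal_add, ← Complex.ofReal_log (by linarith [ht.1, hxpos j])]
      rfl
    · by_cases hk : (k : ℕ) = 0
      · have h4 : fn (w := w) α γ α' γ' x (Sum.inr (Sum.inr k)) (t : ℂ) = Complex.log t := by
          simp [fn, hk]
        rw [h4, ← Complex.ofReal_log (by linarith [ht.1])]
        show ((Real.log t : ℝ) : ℂ) = ((TH818.AP.pl (k : ℕ) t : ℝ) : ℂ)
        unfold TH818.AP.pl
        rw [if_pos hk]
      · have h4 : fn (w := w) α γ α' γ' x (Sum.inr (Sum.inr k)) (t : ℂ) = Li k t := by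
          simp [fn, hk]
        rw [h4, li_real]
        show ((TH818.AP.Li (k : ℕ) t : ℝ) : ℂ) = ((TH818.AP.pl (k : ℕ) t : ℝ) : ℂ)
        unfold TH818.AP.pl
        rw [if_neg hk]

theorem coeff_poly {g n : ℕ} {κ F : Type} [Field F] [NumberField F] (ι : F →+* ℂ) (ξ : Fin g → ℂ) (P : Expr g n κ F)
    (s : Fin n × κ →₀ ℕ) : (poly ι ξ P).coeff s = ∑ a, ξ a * ι (((P a).coeff s : 𝓞 F) : F) := by
  unfold poly
  rw [MvPolynomial.coeff_sum]
  refine Finset.sum_congr rfl fun a _ => ?_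
  rw [MvPolynomial.coeff_C_mul, MvPolynomial.coeff_map]
  rfl

theorem degree_poly {g n d : ℕ} {κ F : Type} [Field F] [NumberField F] (ι : F →+* ℂ) (ξ : Fin g → ℂ) (P : Expr g n κ F)
    (x : Fin n × κ) (hP : ∀ a, (P a).degreeOf x ≤ d) : (poly ι ξ P).degreeOf x ≤ d := by
  classical
  rw [MvPolynomial.degreeOf_le_iff]
  intro s hs
  by_contra hlt
  push Not at hlt
  rw [MvPolynomial.mem_support_iff, coeff_poly] at hs
  apply hs
  refine Finset.sum_eq_zero fun a _ => ?_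
  have h1 : (P a).coeff s = 0 := by
    by_contra hne
    have := MvPolynomial.monomial_le_degreeOf x (MvPolynomial.mem_support_iff.2 hne)
    have := hP a
    omega
  rw [h1]
  simp

theorem poly_sub {g n : ℕ} {κ F : Type} [Field F] [NumberField F] (ι : F →+* ℂ) (ξ : Fin g → ℂ) (P Q : Expr g n κ F) :
    poly ι ξ (P - Q) = poly ι ξ P - poly ι ξ Q := by
  unfold poly
  rw [← Finset.sum_sub_distrib]
  refine Finset.sum_congr rfl fun a _ => ?_
  rw [Pi.sub_apply, map_sub, mul_sub]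

/-- lower bounds exist -/
theorem exists_lower {g : ℕ} (F : Type) [Field F] [NumberField F] (ι : F →+* ℂ) (ξ : Fin g → ℂ) (H : ℝ) :
    ∃ μ : ℝ, 0 < μ ∧ LowerBound F ι ξ H μ := by
  classical
  have h1 : {c : 𝓞 F | ∀ φ : F →+* ℂ, ‖φ (c : F)‖ ≤ H}.Finite := by
    have h2 := NumberField.Embeddings.finite_of_norm_le F ℂ H
    refine Set.Finite.of_finite_image (f := fun c : 𝓞 F => (c : F)) (h2.subset ?_) ?_
    · rintro _ ⟨c, hc, rfl⟩
      exact ⟨c.2, fun φ => hc φ⟩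
    · intro a _ b _ hab
      exact RingOfIntegers.ext hab
  have h3 := (Set.Finite.pi' (fun _ : Fin g => h1)).image (fun c : Fin g → 𝓞 F => ‖∑ a, ξ a * ι (c a : F)‖)
  have key : ∀ S : Set ℝ, S.Finite → ∃ μ : ℝ, 0 < μ ∧ ∀ v ∈ S, 0 < v → μ ≤ v := by
    intro S hS
    induction S, hS using Set.Finite.induction_on with
    | empty => exact ⟨1, one_pos, fun v hv => absurd hv (Set.notMem_empty v)⟩
    | @insert a s _ _ ih =>
      obtain ⟨δ, h1, h2⟩ := ih
      by_cases ha : 0 < a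
      · refine ⟨min δ a, lt_min h1 ha, fun v hv hv0 => ?_⟩
        rcases Set.mem_insert_iff.1 hv with h | h
        · subst h
          exact min_le_right _ _
        · exact (min_le_left _ _).trans (h2 v h hv0)
      · refine ⟨δ, h1, fun v hv hv0 => ?_⟩
        rcases Set.mem_insert_iff.1 hv with h | h
        · subst h
          exact absurd hv0 ha
        · exact h2 v h hv0
  obtain ⟨μ, hμ, h4⟩ := key _ h3
  exact ⟨μ, hμ, fun c hc h0 => h4 _ ⟨c, fun a => hc a, rfl⟩ (norm_pos_iff.2 h0)⟩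

/-- the norm bound for one constant -/
theorem lower_one (m : ℕ) (F : Type) [Field F] [NumberField F] (hF : Module.finrank ℚ F ≤ m) (ι : F →+* ℂ) {H : ℝ}
    (hH : 1 ≤ H) : LowerBound F ι (fun _ : Fin 1 => 1) H (H ^ (-(m : ℝ))) := by
  classical
  intro c hc h0
  have hsum : ∑ a : Fin 1, (fun _ : Fin 1 => (1 : ℂ)) a * ι (c a) = ι (c 0) := by simp
  rw [hsum] at h0 ⊢
  have hc0 : (c 0 : 𝓞 F) ≠ 0 := by
    intro h
    apply h0
    rw [h]
    simp
  have hnorm : (1 : ℝ) ≤ ∏ φ : F →+* ℂ, ‖φ (c 0)‖ := by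
    have h1 : ((Algebra.norm ℚ ((c 0 : 𝓞 F) : F) : ℚ) : ℂ) = ∏ σ : F →+* ℂ, σ (c 0) := by
      have h9 := Algebra.norm_eq_prod_embeddings ℚ ℂ ((c 0 : 𝓞 F) : F)
      rw [eq_ratCast] at h9
      rw [h9]
      exact (Fintype.prod_equiv (RingHom.equivRatAlgHom F ℂ) (fun σ : F →+* ℂ => σ (c 0)) _ (fun σ => rfl)).symm
    have h2 : ((Algebra.norm ℤ (c 0) : ℤ) : ℚ) = Algebra.norm ℚ ((c 0 : 𝓞 F) : F) := by
      rw [Algebra.coe_norm_int]
    have h3 : Algebra.norm ℤ (c 0) ≠ 0 := by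
      rw [Ne, Algebra.norm_eq_zero_iff]
      exact hc0
    rw [← norm_prod, ← h1, ← h2]
    have h4 : (1 : ℤ) ≤ |Algebra.norm ℤ (c 0)| := Int.one_le_abs h3
    have h5 : ‖(((Algebra.norm ℤ (c 0) : ℤ) : ℚ) : ℂ)‖ = ((|Algebra.norm ℤ (c 0)| : ℤ) : ℝ) := by
      rw [Rat.cast_intCast, Complex.norm_intCast, Int.cast_abs]
    rw [h5]
    exact_mod_cast h4
  rw [← Finset.mul_prod_erase Finset.univ _ (Finset.mem_univ ι)] at hnorm
  have h6 : ∏ φ ∈ Finset.univ.erase ι, ‖φ (c 0)‖ ≤ H ^ m := by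
    calc ∏ φ ∈ Finset.univ.erase ι, ‖φ (c 0)‖ ≤ ∏ _φ ∈ (Finset.univ : Finset (F →+* ℂ)).erase ι, H :=
          Finset.prod_le_prod (fun _ _ => norm_nonneg _) (fun φ _ => hc 0 φ)
      _ = H ^ ((Finset.univ : Finset (F →+* ℂ)).erase ι).card := Finset.prod_const _
      _ ≤ H ^ m := by
          refine pow_le_pow_right₀ hH ?_
          calc _ ≤ (Finset.univ : Finset (F →+* ℂ)).card := Finset.card_le_card (Finset.erase_subset _ _)
            _ = Module.finrank ℚ F := by rw [Finset.card_univ, NumberField.Embeddings.card]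
            _ ≤ m := hF
  rw [Real.rpow_neg (by linarith), Real.rpow_natCast, inv_le_iff_one_le_mul₀ (by positivity)]
  calc (1 : ℝ) ≤ ‖ι (c 0)‖ * ∏ φ ∈ Finset.univ.erase ι, ‖φ (c 0)‖ := hnorm
    _ ≤ ‖ι (c 0)‖ * H ^ m := by gcongr

end proofs

/-- Let `α_1 > ⋯ > α_N > 0`, `γ_1 < ⋯ < γ_N < 1`, `0 ≤ a < b ≤ 1`, `α_1 ≤ a`, `b ≤ γ_1`; `0 > α'_1 > ⋯ > α'_M > c`,
`1 < γ'_1 < ⋯ < γ'_M`; `x_1, …, x_k` distinct with `c + x_j > 0`, and let `D` be a compact subset of the unit disc cut along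
the real axis outside of `(a, b)`.

(1) The test is never wrong.

(2) For all `m`, `n`, `g`, `d`, `A` and `ε > 0` there are `B`, `C`, `T₀` such that for all number fields `F` of degree at most
`m`, embeddings `ι`, constants `ξ_1, …, ξ_g`, `T ≥ T₀` and admissible finite sets `X`: if `μ > 0` is a lower bound for the
nonzero combinations of the constants with coefficients of size at most `T ^ (A + 1)` (there is such a `μ`), then for
`δ ≤ μ T ^ (-B)` there are at most `C T ^ ε |X| ^ (n - 1)` `n`-tuples at which the test with precision `δ` gives no answer for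
some pair of expressions of degree at most `d` and size at most `T ^ A`.

(3) For expressions with coefficients in the ring of integers of `F` this holds for `δ ≤ T ^ (-B)`. -/
theorem result {N M k : ℕ} (w : ℕ) (α γ : Fin N → ℝ) (hα : StrictAnti α) (hγ : StrictMono γ) (hα0 : ∀ j, 0 < α j)
    (hγ1 : ∀ j, γ j < 1) (α' γ' : Fin M → ℝ) (hα' : StrictAnti α') (hγ' : StrictMono γ') (hα'0 : ∀ j, α' j < 0)
    (hγ'1 : ∀ j, 1 < γ' j) (x : Fin k → ℝ) (hx : Function.Injective x) (c : ℝ) (hc : c < 0) (hcα : ∀ j, c < α' j)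
    (hcx : ∀ j, 0 < c + x j) (a b : ℝ) (ha : 0 ≤ a) (hab : a < b) (hb : b ≤ 1) (h : ∀ j, α j ≤ a ∧ b ≤ γ j)
    (D : Set ℂ) (hD : IsCompact D) (hDc : D ⊆ Cut a b) (n d : ℕ) :
    (∀ (g : ℕ) (F : Type) [Field F] [NumberField F] (ι : F →+* ℂ) (ξ : Fin g → ℂ) (q : Fin n → F)
      (P₁ P₂ : Expr g n (Name N M k w) F) (v₁ v₂ : ℂ) (δ : ℝ), ‖v₁ - value (fn α γ α' γ' x) ι ξ q P₁‖ ≤ δ →
      ‖v₂ - value (fn α γ α' γ' x) ι ξ q P₂‖ ≤ δ →
      (test ι ξ P₁ P₂ v₁ v₂ δ = some true → value (fn α γ α' γ' x) ι ξ q P₁ = value (fn α γ α' γ' x) ι ξ q P₂) ∧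
      (test ι ξ P₁ P₂ v₁ v₂ δ = some false → value (fn α γ α' γ' x) ι ξ q P₁ ≠ value (fn α γ α' γ' x) ι ξ q P₂)) ∧
    (∀ (m g : ℕ) (A ε : ℝ), 0 < ε → ∃ B C T₀ : ℝ, ∀ (F : Type) [Field F] [NumberField F], Module.finrank ℚ F ≤ m →
      ∀ (ι : F →+* ℂ) (ξ : Fin g → ℂ) (T : ℝ), T₀ ≤ T → (∃ μ : ℝ, 0 < μ ∧ LowerBound F ι ξ (T ^ (A + 1)) μ) ∧
        ∀ X : Finset F, Admissible D F ι T X → ∀ μ δ : ℝ, 0 < μ → LowerBound F ι ξ (T ^ (A + 1)) μ →
          δ ≤ μ * T ^ (-B) → ((NoAnswer (fn (w := w) α γ α' γ' x) n d F ι ξ X (T ^ A) δ).ncard : ℝ) ≤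
            C * T ^ ε * (X.card : ℝ) ^ (n - 1)) ∧
    (∀ (m : ℕ) (A ε : ℝ), 0 ≤ A → 0 < ε → ∃ B C T₀ : ℝ, ∀ (F : Type) [Field F] [NumberField F],
      Module.finrank ℚ F ≤ m → ∀ (ι : F →+* ℂ) (T : ℝ), T₀ ≤ T → ∀ X : Finset F, Admissible D F ι T X → ∀ δ : ℝ,
        δ ≤ T ^ (-B) → ((NoAnswer (fn (w := w) α γ α' γ' x) n d F ι (fun _ : Fin 1 => 1) X (T ^ A) δ).ncard : ℝ) ≤
          C * T ^ ε * (X.card : ℝ) ^ (n - 1)) := by
  classical
  have main : ∀ (m g : ℕ) (A ε : ℝ), 0 < ε → ∃ B C T₀ : ℝ, 2 ≤ T₀ ∧ ∀ (F : Type) [Field F] [NumberField F],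
      Module.finrank ℚ F ≤ m → ∀ (ι : F →+* ℂ) (ξ : Fin g → ℂ) (T : ℝ), T₀ ≤ T →
        ∀ X : Finset F, Admissible D F ι T X → ∀ μ δ : ℝ, 0 < μ → LowerBound F ι ξ (T ^ (A + 1)) μ →
          δ ≤ μ * T ^ (-B) → ((NoAnswer (fn (w := w) α γ α' γ' x) n d F ι ξ X (T ^ A) δ).ncard : ℝ) ≤
            C * T ^ ε * (X.card : ℝ) ^ (n - 1) := by
    intro m g A ε hε
    obtain ⟨B, C, T₀, H⟩ := few w α γ hα hγ hα0 hγ1 α' γ' hα' hγ' hα'0 hγ'1 x hx c hc hcα hcx a b ha hab hb h D hD hDc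
      m n g d (A + 1) ε hε
    refine ⟨B + 2, C, max T₀ 2, le_max_right _ _, fun F _ _ hF ι ξ T hT X hX μ δ hμ hlow hδ => ?_⟩
    have hT2 : 2 ≤ T := (le_max_right _ _).trans hT
    have hT0 : 0 < T := by linarith
    refine le_trans ?_ (H F hF ι ξ T ((le_max_left _ _).trans hT) X hX)
    norm_cast
    refine Set.ncard_le_ncard ?_ ?_
    · rintro q ⟨hq, P₁, P₂, hP₁, hP₂, v₁, v₂, hv₁, hv₂, ht⟩
      refine ⟨hq, poly ι ξ (P₁ - P₂), ?_, ?_, ?_⟩
      · intro y
        refine degree_poly ι ξ _ y fun a => ?_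
        exact (MvPolynomial.degreeOf_sub_le y (P₁ a) (P₂ a)).trans (max_le ((hP₁ a).1 y) ((hP₂ a).1 y))
      · intro s
        refine ⟨fun a => ((P₁ - P₂) a).coeff s, fun a φ => ?_, coeff_poly ι ξ _ s⟩
        have h7 : φ ((((P₁ - P₂) a).coeff s : 𝓞 F) : F) =
            φ (((P₁ a).coeff s : 𝓞 F) : F) - φ (((P₂ a).coeff s : 𝓞 F) : F) := by
          rw [Pi.sub_apply, MvPolynomial.coeff_sub]
          push_cast
          rw [map_sub]
        rw [h7, Real.rpow_add hT0, Real.rpow_one]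
        have h8 := (hP₁ a).2 s φ
        have h9 := (hP₂ a).2 s φ
        have h10 : 0 ≤ T ^ A := Real.rpow_nonneg hT0.le _
        calc _ ≤ ‖φ (((P₁ a).coeff s : 𝓞 F) : F)‖ + ‖φ (((P₂ a).coeff s : 𝓞 F) : F)‖ := norm_sub_le _ _
          _ ≤ T ^ A + T ^ A := add_le_add h8 h9
          _ ≤ T ^ A * T := by nlinarith
      · unfold test at ht
        by_cases h5 : poly ι ξ P₁ = poly ι ξ P₂
        · rw [if_pos h5] at ht
          simp at ht
        rw [if_neg h5] at ht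
        by_cases h6 : 2 * δ < ‖v₁ - v₂‖
        · rw [if_pos h6] at ht
          simp at ht
        have hne : poly ι ξ (P₁ - P₂) ≠ 0 := by
          rw [poly_sub, sub_ne_zero]
          exact h5
        obtain ⟨s₀, hs₀⟩ := MvPolynomial.ne_zero_iff.1 hne
        refine ⟨s₀, hs₀, ?_⟩
        have hμs : μ ≤ ‖(poly ι ξ (P₁ - P₂)).coeff s₀‖ := by
          rw [coeff_poly] at hs₀ ⊢
          refine hlow _ (fun a φ => ?_) hs₀
          have h7 : φ ((((P₁ - P₂) a).coeff s₀ : 𝓞 F) : F) =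
              φ (((P₁ a).coeff s₀ : 𝓞 F) : F) - φ (((P₂ a).coeff s₀ : 𝓞 F) : F) := by
            rw [Pi.sub_apply, MvPolynomial.coeff_sub]
            push_cast
            rw [map_sub]
          rw [h7, Real.rpow_add hT0, Real.rpow_one]
          have h8 := (hP₁ a).2 s₀ φ
          have h9 := (hP₂ a).2 s₀ φ
          have h10 : 0 ≤ T ^ A := Real.rpow_nonneg hT0.le _
          calc _ ≤ ‖φ (((P₁ a).coeff s₀ : 𝓞 F) : F)‖ + ‖φ (((P₂ a).coeff s₀ : 𝓞 F) : F)‖ := norm_sub_le _ _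
            _ ≤ T ^ A + T ^ A := add_le_add h8 h9
            _ ≤ T ^ A * T := by nlinarith
        have hval : MvPolynomial.aeval (fun y : Fin n × Name N M k w => fn α γ α' γ' x y.2 (ι (q y.1)))
            (poly ι ξ (P₁ - P₂)) = value (fn α γ α' γ' x) ι ξ q P₁ - value (fn α γ α' γ' x) ι ξ q P₂ := by
          unfold value
          rw [poly_sub, map_sub]
        rw [hval]
        have h7 : value (fn α γ α' γ' x) ι ξ q P₁ - value (fn α γ α' γ' x) ι ξ q P₂ =
            (v₁ - v₂) - (v₁ - value (fn α γ α' γ' x) ι ξ q P₁) + (v₂ - value (fn α γ α' γ' x) ι ξ q P₂) := by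
          ring
        rw [h7]
        have h8 := norm_add_le ((v₁ - v₂) - (v₁ - value (fn α γ α' γ' x) ι ξ q P₁))
          (v₂ - value (fn α γ α' γ' x) ι ξ q P₂)
        have h9 := norm_sub_le (v₁ - v₂) (v₁ - value (fn α γ α' γ' x) ι ξ q P₁)
        have h10 := not_lt.1 h6
        have h11 : 4 * δ ≤ T ^ (-B) * μ := by
          have h12 : T ^ (-(B + 2)) * 4 ≤ T ^ (-B) := by
            have h13 : T ^ (-(B + 2)) = T ^ (-B) * (T ^ (2 : ℕ))⁻¹ := by
              rw [show -(B + 2) = -B + (-(2 : ℝ)) by ring, Real.rpow_add hT0, Real.rpow_neg hT0.le]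
              norm_num
            rw [h13]
            have h14 : 0 < T ^ (-B) := Real.rpow_pos_of_pos hT0 _
            have h15 : (T ^ (2 : ℕ))⁻¹ * 4 ≤ 1 := by
              rw [inv_mul_le_iff₀ (by positivity)]
              nlinarith
            calc T ^ (-B) * (T ^ (2 : ℕ))⁻¹ * 4 = T ^ (-B) * ((T ^ (2 : ℕ))⁻¹ * 4) := by ring
              _ ≤ T ^ (-B) * 1 := by gcongr
              _ = T ^ (-B) := mul_one _
          calc 4 * δ ≤ 4 * (μ * T ^ (-(B + 2))) := by linarith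
            _ = μ * (T ^ (-(B + 2)) * 4) := by ring
            _ ≤ μ * T ^ (-B) := by gcongr
            _ = T ^ (-B) * μ := mul_comm _ _
        have h16 : T ^ (-B) * μ ≤ T ^ (-B) * ‖(poly ι ξ (P₁ - P₂)).coeff s₀‖ := by
          have : 0 < T ^ (-B) := Real.rpow_pos_of_pos hT0 _
          gcongr
        linarith
    · exact (Set.Finite.pi' fun _ : Fin n => X.finite_toSet).subset fun q hq => hq.1
  refine ⟨?_, ?_, ?_⟩
  · intro g F _ _ ι ξ q P₁ P₂ v₁ v₂ δ h1 h2
    constructor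
    · intro h3
      unfold test at h3
      by_cases hf : poly ι ξ P₁ = poly ι ξ P₂
      · unfold value
        rw [hf]
      · rw [if_neg hf] at h3
        by_cases h4 : 2 * δ < ‖v₁ - v₂‖
        · rw [if_pos h4] at h3
          simp at h3
        · rw [if_neg h4] at h3
          simp at h3
    · intro h3 he
      unfold test at h3
      have h6 : ‖v₁ - v₂‖ ≤ ‖v₁ - value (fn α γ α' γ' x) ι ξ q P₁‖ + ‖v₂ - value (fn α γ α' γ' x) ι ξ q P₂‖ := by
        have h7 : v₁ - v₂ = (v₁ - value (fn α γ α' γ' x) ι ξ q P₁) - (v₂ - value (fn α γ α' γ' x) ι ξ q P₂) := by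
          rw [he]
          ring
        rw [h7]
        exact norm_sub_le _ _
      by_cases hf : poly ι ξ P₁ = poly ι ξ P₂
      · rw [if_pos hf] at h3
        simp at h3
      · rw [if_neg hf] at h3
        by_cases h4 : 2 * δ < ‖v₁ - v₂‖
        · linarith
        · rw [if_neg h4] at h3
          simp at h3
  · intro m g A ε hε
    obtain ⟨B, C, T₀, -, H⟩ := main m g A ε hε
    exact ⟨B, C, T₀, fun F _ _ hF ι ξ T hT => ⟨exists_lower F ι ξ _, fun X hX μ δ hμ hlow hδ =>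
      H F hF ι ξ T hT X hX μ δ hμ hlow hδ⟩⟩
  · intro m A ε hA hε
    obtain ⟨B, C, T₀, hT2, H⟩ := main m 1 A ε hε
    refine ⟨B + (A + 1) * m, C, T₀, fun F _ _ hF ι T hT X hX δ hδ => ?_⟩
    have hT1 : 1 ≤ T := by linarith
    have hT0 : 0 < T := by linarith
    have h1 : (1 : ℝ) ≤ T ^ (A + 1) := Real.one_le_rpow hT1 (by linarith)
    refine H F hF ι (fun _ => 1) T hT X hX _ δ (Real.rpow_pos_of_pos (by linarith) _) (lower_one m F hF ι h1) ?_
    rw [← Real.rpow_mul hT0.le, ← Real.rpow_add hT0]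
    refine hδ.trans (le_of_eq ?_)
    congr 1
    ring

end Pool.Agent.Results.MP_bbe012_lc.ComplexParameters
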