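import Pool.Agent.Y119.PLM.Reg
import Pool.Agent.Q311.MV.Spec
import Pool.Agent.Q311.KO.Ostm

/-!
# An errorless test for the equality of periods of mixed families over bases of any dimension

Let `Y j`, `j` in a finite set `κ`, be the period matrices of families of smooth projective varieties over a connected
open subset `U` of the affine space with coordinates indexed by the finite set `X` (in the middle, odd degree of the
cohomology, in symplectic bases of the algebraic de Rham cohomology), such that the monodromy is Zariski dense in the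
product of the symplectic groups, and let `z 0, …, z (m - 1)` be further period functions whose differentials have
coefficients in the field `F = ℂ(x, Y)` (integrals of the second and third kind on the varieties of the family, normal
functions, logarithms, primitives of modular forms, …) and such that no nontrivial linear combination of the `z i`
with constant coefficients is in `F`.

The inputs of the test are two expressions, i.e. polynomials in the entries of the `Y j` and in the `z i`. Their
coefficients are combinations of given complex constants `ξ` (for instance the powers of `2 π i`, or other fixed periods)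
with integers of a number field as coefficients. A further input are two approximations of the values of the
expressions at a point `s`. Formal equality of the expressions means that they agree on all tuples of matrices `A` with
`(A j)ᵀ * J' j * A j = J j` (the relations of Legendre, Riemann and Weil), with arbitrary values for the `z i`. This is a
question of elimination theory over the ring of the constants. The test answers that they are equal if the expressions are formally
equal, that they are different if they are not and the approximations are far from each other, and otherwise it gives no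
answer.

The test is never wrong, at any point `s` of `U`. There are bounds `ω T → ∞` such that for all number fields `K` of
degree at most `ω T`, for all constants and all sufficiently good approximations, the test gives an answer for all pairs of
expressions of degree at most `ω T`, with coefficients of size at most `T ^ ω T / 2`, at all points with coordinates in `K`
of height at most `T` in the inner part of `U` outside few hypersurfaces of small degree.
-/

set_option autoImplicit false

open Filter NumberField Matrix Pool.Agent.Q311.MV Pool.Agent.Q311.KO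
open Pool.Agent.Y119.PLM (MT Ix IsMon DenseMon regularM_of sp_mem vt)
open Pool.Agent.Y890.MV (InnerM RegularM evM)
open Pool.Agent.Y890.SP (Qbar)

namespace Pool.Agent.Results.MP_bbe012_lc.MixedFamilies

/-- the entries of the matrices as functions -/
def entries {X κ : Type} {n : κ → ℕ} (Y : (X → ℂ) → MT n) (i : Ix n) (x : X → ℂ) : ℂ := Y x i.1 i.2.1 i.2.2

/-- the differential of `g` on `U` is a `1`-form whose coefficients are rational functions of `x` and of the `f i x` -/
def Primitive {X σ : Type} [Fintype X] [DecidableEq X] (U : Set (X → ℂ)) (f : σ → (X → ℂ) → ℂ) (g : (X → ℂ) → ℂ) :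
    Prop :=
  ∀ j : X, ∃ P Q : MvPolynomial σ (MvPolynomial X ℂ), (∃ x ∈ U, evM f x Q ≠ 0) ∧
    ∀ x ∈ U, evM f x Q * fderiv ℂ g x (Pi.single j 1) = evM f x P

/-- An expression is a polynomial with complex coefficients in the entries of the matrices and in `m` further variables.
It is bounded if its degree in each variable is at most `k` and its coefficients are of the form `∑ a, ξ a * c a`, `c a`
integers of `K` all conjugates of which have absolute value at most `R`. -/
def Bounded {σ : Type} (k : ℕ) (K : Type) [Field K] [NumberField K] (io : K →+* ℂ) (ξ : Fin k → ℂ) (R : ℝ)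
    (P : MvPolynomial σ ℂ) : Prop :=
  (∀ i, P.degreeOf i ≤ k) ∧
    ∀ m, ∃ c : Fin k → 𝓞 K, (∀ a (φ : K →+* ℂ), ‖φ (c a : K)‖ ≤ R) ∧ P.coeff m = ∑ a, ξ a * io (c a : K)

/-- the value of an expression for the matrices `A j` and the further numbers `w i` -/
noncomputable def evalAt {κ : Type} {n : κ → ℕ} {m : ℕ} (A : MT n) (w : Fin m → ℂ)
    (P : MvPolynomial (Ix n ⊕ Fin m) ℂ) : ℂ :=
  MvPolynomial.eval (Sum.elim (fun i => A i.1 i.2.1 i.2.2) w) P

/-- the value of an expression at the point `s` -/
noncomputable def value {X κ : Type} {n : κ → ℕ} {m : ℕ} (Y : (X → ℂ) → MT n) (z : Fin m → (X → ℂ) → ℂ) (s : X → ℂ)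
    (P : MvPolynomial (Ix n ⊕ Fin m) ℂ) : ℂ :=
  evalAt (Y s) (fun i => z i s) P

/-- formal equality of two expressions -/
def FormallyEqual {κ : Type} {n : κ → ℕ} {m : ℕ} (J J' : MT n) (P₁ P₂ : MvPolynomial (Ix n ⊕ Fin m) ℂ) : Prop :=
  ∀ A : MT n, (∀ j, (A j)ᵀ * J' j * A j = J j) → ∀ w : Fin m → ℂ, evalAt A w P₁ = evalAt A w P₂

open Classical in
/-- The test. Input: two expressions and approximations `v₁`, `v₂` of their values with error at most `δ`. It answers
`true` (equal) if the expressions are formally equal, `false` (not equal) if they are not and `‖v₁ - v₂‖ > 2 δ`, and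
`none` (no answer) otherwise. -/
noncomputable def test {κ : Type} {n : κ → ℕ} {m : ℕ} (J J' : MT n) (P₁ P₂ : MvPolynomial (Ix n ⊕ Fin m) ℂ) (v₁ v₂ : ℂ)
    (δ : ℝ) : Option Bool :=
  if FormallyEqual J J' P₁ P₂ then some true else if 2 * δ < ‖v₁ - v₂‖ then some false else none

/-- the points with coordinates in `K` of height at most `T`, of norm at most `k` and at distance at least `1 / k` from the
complement of `U`, at which the test with precision `δ` gives no answer for some pair of bounded expressions and some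
admissible approximations of their values -/
def NoAnswer {X κ : Type} [Fintype X] {n : κ → ℕ} {m : ℕ} (J J' : MT n) (U : Set (X → ℂ)) (Y : (X → ℂ) → MT n)
    (z : Fin m → (X → ℂ) → ℂ) (k : ℕ) (K : Type) [Field K] [NumberField K] (io : K →+* ℂ) (ξ : Fin k → ℂ) (T δ : ℝ) :
    Set (X → K) :=
  {s | (∀ j, Y120.HtLe K T (s j)) ∧ (fun j => io (s j)) ∈ InnerM U k ∧
    ∃ P₁ P₂ : MvPolynomial (Ix n ⊕ Fin m) ℂ, Bounded k K io ξ (T ^ k / 2) P₁ ∧ Bounded k K io ξ (T ^ k / 2) P₂ ∧
      ∃ v₁ v₂ : ℂ, ‖v₁ - value Y z (fun j => io (s j)) P₁‖ ≤ δ ∧ ‖v₂ - value Y z (fun j => io (s j)) P₂‖ ≤ δ ∧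
        test J J' P₁ P₂ v₁ v₂ δ = none}

/-- the points lie on at most `T ^ (1 / k)` hypersurfaces of degree at most `T ^ (1 / k)`, and there are at most
`T ^ (1 / k) * N ^ (|X| - 1)` of them, `N` being the number of elements of `K` of height at most `T` -/
def Few {X : Type} [Fintype X] (k : ℕ) (K : Type) [Field K] [NumberField K] (io : K →+* ℂ) (T : ℝ) (S : Set (X → K)) :
    Prop :=
  Y124.Cov ⌊T ^ ((k : ℝ)⁻¹)⌋₊ ⌊T ^ ((k : ℝ)⁻¹)⌋₊ ((fun (s : X → K) i => io (s i)) '' S) ∧ S.Finite ∧
    (S.ncard : ℝ) ≤ T ^ ((k : ℝ)⁻¹) * ({x : K | Y120.HtLe K T x}.ncard : ℝ) ^ (Fintype.card X - 1)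

section proofs

theorem few_mono {X : Type} [Fintype X] {k : ℕ} {K : Type} [Field K] [NumberField K] {io : K →+* ℂ} {T : ℝ}
    {S S' : Set (X → K)} (h : Few k K io T S') (hS : S ⊆ S') : Few k K io T S :=
  ⟨h.1.mono le_rfl le_rfl (Set.image_mono hS), h.2.1.subset hS,
    le_trans (by exact_mod_cast Set.ncard_le_ncard hS h.2.1) h.2.2⟩

/-- functional relations hold on the torsor -/
theorem tor_inv {X κ : Type} [Fintype X] [DecidableEq κ] {n : κ → ℕ} {J J' : MT n} {U : Set (X → ℂ)} (hU : IsPreconnected U)
    {Y : (X → ℂ) → MT n} (hY : ∀ j a b, AnalyticOnNhd ℂ (fun x => Y x j a b) U)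
    (hdet : ∀ j, (J j).det ≠ 0) (hsym : ∀ x ∈ U, ∀ j, (Y x j)ᵀ * J' j * Y x j = J j) (hD : DenseMon U Y J)
    {x : X → ℂ} (hx : x ∈ U) {A : MT n} (hA : ∀ j, (A j)ᵀ * J' j * A j = J j)
    (p : MvPolynomial (Ix n) (MvPolynomial X ℂ)) (hp : ∀ x ∈ U, evM (entries Y) x p = 0) :
    MvPolynomial.eval₂ (MvPolynomial.eval x) (fun i : Ix n => A i.1 i.2.1 i.2.2) p = 0 := by
  have hYd : ∀ j, (Y x j).det ≠ 0 := by
    intro j h0
    apply hdet j
    rw [← hsym x hx j, det_mul, h0, mul_zero]
  have hg : ∀ j, ((Y x j)⁻¹ * A j)ᵀ * J j * ((Y x j)⁻¹ * A j) = J j := by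
    intro j
    have h1 : Y x j * ((Y x j)⁻¹ * A j) = A j := by
      rw [← Matrix.mul_assoc, mul_nonsing_inv _ (isUnit_iff_ne_zero.2 (hYd j)), Matrix.one_mul]
    calc ((Y x j)⁻¹ * A j)ᵀ * J j * ((Y x j)⁻¹ * A j)
        = ((Y x j)⁻¹ * A j)ᵀ * ((Y x j)ᵀ * J' j * Y x j) * ((Y x j)⁻¹ * A j) := by rw [hsym x hx j]
      _ = (Y x j * ((Y x j)⁻¹ * A j))ᵀ * J' j * (Y x j * ((Y x j)⁻¹ * A j)) := by
        rw [transpose_mul (Y x j)]
        simp only [Matrix.mul_assoc]
      _ = J j := by rw [h1, hA j]
  have h1 := sp_mem hU hY hD (fun j => (Y x j)⁻¹ * A j) hg p hp x hx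
  have h2 : Y x * (fun j => (Y x j)⁻¹ * A j) = A := by
    funext j
    rw [Pi.mul_apply, ← Matrix.mul_assoc, mul_nonsing_inv _ (isUnit_iff_ne_zero.2 (hYd j)), Matrix.one_mul]
  rw [h2] at h1
  exact h1

/-- the bounded expressions are finite in number -/
theorem bounded_finite {σ : Type} [Fintype σ] [DecidableEq σ] (k : ℕ) (K : Type) [Field K] [NumberField K]
    (io : K →+* ℂ) (ξ : Fin k → ℂ) (R : ℝ) : {P : MvPolynomial σ ℂ | Bounded k K io ξ R P}.Finite := by
  have h1 : {c : 𝓞 K | ∀ φ : K →+* ℂ, ‖φ (c : K)‖ ≤ R}.Finite := by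
    have h2 := NumberField.Embeddings.finite_of_norm_le K ℂ R
    refine Set.Finite.of_finite_image (f := fun c : 𝓞 K => (c : K)) (h2.subset ?_) ?_
    · rintro _ ⟨c, hc, rfl⟩
      exact ⟨c.2, fun φ => hc φ⟩
    · intro a _ b _ hab
      exact RingOfIntegers.ext hab
  have h3 : {x : ℂ | ∃ c : Fin k → 𝓞 K, (∀ a (φ : K →+* ℂ), ‖φ (c a : K)‖ ≤ R) ∧
      x = ∑ a, ξ a * io (c a : K)}.Finite := by
    have h4 := (Set.Finite.pi' (fun _ : Fin k => h1)).image (fun c : Fin k → 𝓞 K => ∑ a, ξ a * io (c a : K))
    refine h4.subset ?_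
    rintro x ⟨c, hc, rfl⟩
    exact ⟨c, fun a => hc a, rfl⟩
  have h5 := Set.Finite.pi' (fun _ : σ → Fin (k + 1) => h3)
  refine Set.Finite.of_finite_image (f := fun (P : MvPolynomial σ ℂ) (l : σ → Fin (k + 1)) =>
    P.coeff (Finsupp.equivFunOnFinite.symm fun y => (l y : ℕ))) (h5.subset ?_) ?_
  · rintro _ ⟨P, hP, rfl⟩ l
    exact hP.2 _
  · intro P hP Q hQ hPQ
    rw [← sum_exp hP.1, ← sum_exp hQ.1]
    refine Finset.sum_congr rfl fun l _ => ?_
    have := congrFun hPQ l
    simp only at this
    rw [this]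

/-- a finite set of complex numbers -/
theorem gap {S : Set ℂ} (hS : S.Finite) : ∃ δ : ℝ, 0 < δ ∧ ∀ v ∈ S, v ≠ 0 → 4 * δ < ‖v‖ := by
  induction S, hS using Set.Finite.induction_on with
  | empty => exact ⟨1, one_pos, fun v hv => absurd hv (Set.notMem_empty v)⟩
  | @insert a s _ _ ih =>
    obtain ⟨δ, h1, h2⟩ := ih
    by_cases ha : a = 0
    · refine ⟨δ, h1, fun v hv hv0 => ?_⟩
      rcases Set.mem_insert_iff.1 hv with h | h
      · exact absurd (h.trans ha) hv0
      · exact h2 v h hv0
    · have hpos : 0 < ‖a‖ := norm_pos_iff.2 ha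
      refine ⟨min δ (‖a‖ / 5), lt_min h1 (by positivity), fun v hv hv0 => ?_⟩
      rcases Set.mem_insert_iff.1 hv with h | h
      · subst h
        have := min_le_right δ (‖v‖ / 5)
        linarith
      · have := h2 v h hv0
        have := min_le_left δ (‖a‖ / 5)
        linarith

end proofs

/-- Let `U` be a connected open subset of `ℂ ^ X`, `Y j` square matrices of analytic functions on `U`, `J j` invertible
alternating matrices and `J' j` matrices with `(Y j)ᵀ * J' j * Y j = J j` on `U`. We assume that the monodromy is Zariski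
dense in the product of the symplectic groups of the `J j`, that the partial derivatives of the entries of the `Y j`
and of the analytic functions `z 0, …, z (m - 1)` are rational functions of `x` and of the entries, and that no nontrivial
linear combination of the `z i` with constant coefficients is such a function.

(1) The test is never wrong.

(2) There is `ω → ∞` such that for all large `T`, all number fields `K` of degree at most `ω T`, all embeddings and all
complex numbers `ξ a`, `a < ω T`, there is `δ₀ > 0` such that for all precisions `δ ≤ δ₀` there are few points at which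
the test gives no answer for some pair of bounded expressions. -/
theorem result {X κ : Type} [Fintype X] [DecidableEq X] [Nonempty X] [Fintype κ] [DecidableEq κ] (n : κ → ℕ)
    (J J' : MT n) (hJ : ∀ j, (J j)ᵀ = -J j) (hdet : ∀ j, (J j).det ≠ 0) (U : Set (X → ℂ)) (hU : IsPreconnected U)
    (hUo : IsOpen U) (hne : U.Nonempty) (Y : (X → ℂ) → MT n) (hY : ∀ j a b, AnalyticOnNhd ℂ (fun x => Y x j a b) U)
    (hsym : ∀ x ∈ U, ∀ j, (Y x j)ᵀ * J' j * Y x j = J j) (hGM : ∀ i, Primitive U (entries Y) (entries Y i))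
    (hD : DenseMon U Y J) (m : ℕ) (z : Fin m → (X → ℂ) → ℂ) (hz : ∀ i, AnalyticOnNhd ℂ (z i) U)
    (hp : ∀ i, Primitive U (entries Y) (z i))
    (hind : ∀ (c : Fin m → ℂ) (P Q : MvPolynomial (Ix n) (MvPolynomial X ℂ)), (∃ x ∈ U, evM (entries Y) x Q ≠ 0) →
      (∀ x ∈ U, evM (entries Y) x Q * ∑ i, c i * z i x = evM (entries Y) x P) → c = 0) :
    (∀ s ∈ U, ∀ (P₁ P₂ : MvPolynomial (Ix n ⊕ Fin m) ℂ) (v₁ v₂ : ℂ) (δ : ℝ), ‖v₁ - value Y z s P₁‖ ≤ δ →
      ‖v₂ - value Y z s P₂‖ ≤ δ →
        (test J J' P₁ P₂ v₁ v₂ δ = some true → value Y z s P₁ = value Y z s P₂) ∧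
        (test J J' P₁ P₂ v₁ v₂ δ = some false → value Y z s P₁ ≠ value Y z s P₂)) ∧
    ∃ (ω : ℝ → ℕ) (T₀ : ℝ), Tendsto ω atTop atTop ∧ Monotone ω ∧ ∀ T, T₀ ≤ T → 0 < ω T ∧
      ∀ (K : Type) [Field K] [NumberField K], Module.finrank ℚ K ≤ ω T → ∀ (io : K →+* ℂ) (ξ : Fin (ω T) → ℂ),
        ∃ δ₀ : ℝ, 0 < δ₀ ∧ ∀ δ ≤ δ₀, Few (ω T) K io T (NoAnswer J J' U Y z (ω T) K io ξ T δ) := by
  classical
  constructor
  · intro s hs P₁ P₂ v₁ v₂ δ h1 h2
    constructor
    · intro h
      unfold test at h
      by_cases hf : FormallyEqual J J' P₁ P₂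
      · exact hf (Y s) (fun j => hsym s hs j) _
      · rw [if_neg hf] at h
        by_cases h4 : 2 * δ < ‖v₁ - v₂‖
        · rw [if_pos h4] at h
          simp at h
        · rw [if_neg h4] at h
          simp at h
    · intro h he
      unfold test at h
      have h5 : ‖v₁ - v₂‖ ≤ ‖v₁ - value Y z s P₁‖ + ‖v₂ - value Y z s P₂‖ := by
        have h6 : v₁ - v₂ = (v₁ - value Y z s P₁) - (v₂ - value Y z s P₂) := by
          rw [he]
          ring
        rw [h6]
        exact norm_sub_le _ _
      by_cases hf : FormallyEqual J J' P₁ P₂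
      · rw [if_pos hf] at h
        simp at h
      · rw [if_neg hf] at h
        by_cases h4 : 2 * δ < ‖v₁ - v₂‖
        · linarith
        · rw [if_neg h4] at h
          simp at h
  · have hYa : ∀ i, AnalyticOnNhd ℂ (entries Y i) U := fun i => hY _ _ _
    have hregY : RegularM U (entries Y) :=
      regularM_of hJ hdet hU hUo hY hsym (fun g hg => sp_mem hU hY hD g hg)
    have hT : ∀ i, Primitive U (Sum.elim (entries Y) fun k : {k : Fin m // k < i} => z k.1) (z i) := by
      intro i j
      obtain ⟨P, Q, hQ, hPQ⟩ := hp i j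
      have hren : ∀ (R : MvPolynomial (Ix n) (MvPolynomial X ℂ)) (x : X → ℂ),
          evM (Sum.elim (entries Y) fun k : {k : Fin m // k < i} => z k.1) x (MvPolynomial.rename Sum.inl R) =
            evM (entries Y) x R := by
        intro R x
        unfold evM
        rw [MvPolynomial.eval₂_rename]
        rfl
      refine ⟨MvPolynomial.rename Sum.inl P, MvPolynomial.rename Sum.inl Q, ?_, ?_⟩
      · obtain ⟨x, hx, hQx⟩ := hQ
        exact ⟨x, hx, by rw [hren]; exact hQx⟩
      · intro x hx
        rw [hren, hren]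
        exact hPQ x hx
    have hreg := tower_reg hU hUo hne (entries Y) hYa hGM hregY z hz hT
    obtain ⟨ω, T₀, h1, h2, h3⟩ := spec_main hU hUo hne (f := Sum.elim (entries Y) z) (an_elim hYa hz) hreg
    refine ⟨ω, T₀, h1, h2, fun T hT => ⟨(h3 T hT).1, fun K _ _ hK io ξ => ?_⟩⟩
    have hpos := (h3 T hT).1
    have h4 := (h3 T hT).2 K hK io ξ
    -- the values of all differences
    have hfin : {v : ℂ | ∃ s : X → K, (∀ j, Y120.HtLe K T (s j)) ∧ ∃ P : MvPolynomial (Ix n ⊕ Fin m) ℂ,
        Bounded (ω T) K io ξ (T ^ ω T) P ∧ v = value Y z (fun j => io (s j)) P}.Finite := by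
      have h5 := (Set.Finite.pi' (fun _ : X => Y120.HtLe_fin (K := K) T)).prod
        (bounded_finite (σ := Ix n ⊕ Fin m) (ω T) K io ξ (T ^ ω T))
      refine (h5.image fun x => value Y z (fun j => io (x.1 j)) x.2).subset ?_
      rintro v ⟨s, hs, P, hP, rfl⟩
      exact ⟨(s, P), ⟨fun j => hs j, hP⟩, rfl⟩
    obtain ⟨δ₀, hδ0, hδ⟩ := gap hfin
    refine ⟨δ₀, hδ0, fun δ hle => ?_⟩
    refine few_mono h4 ?_
    rintro s ⟨hs1, hs2, P₁, P₂, hP₁, hP₂, v₁, v₂, hv₁, hv₂, ht⟩
    refine ⟨hs1, hs2, fun hf => ?_⟩
    have hsU := Pool.Agent.Y890.MV.innerM_sub U hpos hs2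
    unfold test at ht
    by_cases h5 : FormallyEqual J J' P₁ P₂
    · rw [if_pos h5] at ht
      simp at ht
    rw [if_neg h5] at ht
    by_cases h6 : 2 * δ < ‖v₁ - v₂‖
    · rw [if_pos h6] at ht
      simp at ht
    apply h5
    -- the difference is bounded
    have hB : Bounded (ω T) K io ξ (T ^ ω T) (P₁ - P₂) := by
      refine ⟨fun i => (MvPolynomial.degreeOf_sub_le i P₁ P₂).trans (max_le (hP₁.1 i) (hP₂.1 i)), fun e => ?_⟩
      obtain ⟨c₁, hc₁, he₁⟩ := hP₁.2 e
      obtain ⟨c₂, hc₂, he₂⟩ := hP₂.2 e
      refine ⟨fun a => c₁ a - c₂ a, fun a φ => ?_, ?_⟩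
      · have h7 : φ ((c₁ a - c₂ a : 𝓞 K) : K) = φ (c₁ a : K) - φ (c₂ a : K) := by
          push_cast
          rw [map_sub]
        rw [h7]
        calc _ ≤ ‖φ (c₁ a : K)‖ + ‖φ (c₂ a : K)‖ := norm_sub_le _ _
          _ ≤ T ^ ω T / 2 + T ^ ω T / 2 := add_le_add (hc₁ a φ) (hc₂ a φ)
          _ = T ^ ω T := by ring
      · rw [MvPolynomial.coeff_sub, he₁, he₂, ← Finset.sum_sub_distrib]
        refine Finset.sum_congr rfl fun a _ => ?_
        push_cast
        rw [map_sub]
        ring
    have hval : value Y z (fun j => io (s j)) (P₁ - P₂) =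
        value Y z (fun j => io (s j)) P₁ - value Y z (fun j => io (s j)) P₂ := by
      unfold value evalAt
      rw [map_sub]
    have hsmall : ‖value Y z (fun j => io (s j)) (P₁ - P₂)‖ ≤ 4 * δ := by
      rw [hval]
      have h7 : value Y z (fun j => io (s j)) P₁ - value Y z (fun j => io (s j)) P₂ =
          (v₁ - v₂) - (v₁ - value Y z (fun j => io (s j)) P₁) + (v₂ - value Y z (fun j => io (s j)) P₂) := by
        ring
      rw [h7]
      have h8 := norm_add_le ((v₁ - v₂) - (v₁ - value Y z (fun j => io (s j)) P₁))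
        (v₂ - value Y z (fun j => io (s j)) P₂)
      have h9 := norm_sub_le (v₁ - v₂) (v₁ - value Y z (fun j => io (s j)) P₁)
      have h10 := not_lt.1 h6
      linarith
    have hzero : value Y z (fun j => io (s j)) (P₁ - P₂) = 0 := by
      by_contra hne0
      have := hδ _ ⟨s, hs1, P₁ - P₂, hB, rfl⟩ hne0
      linarith
    intro A hA w
    have hfun : (fun i => Sum.elim (entries Y) z i fun j => io (s j)) =
        Sum.elim (fun i : Ix n => Y (fun j => io (s j)) i.1 i.2.1 i.2.2) fun i => z i fun j => io (s j) := by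
      funext i
      rcases i with i | i <;> rfl
    obtain ⟨F, hF1, hF2, _, _⟩ := hf (P₁ - P₂) hB.1 hB.2 (by rw [hfun]; exact hzero)
    have h7 := ost_all hU hUo hne (entries Y) hYa hGM z hz hp hind F hF1 (x := fun j => io (s j))
      (A := fun i : Ix n => A i.1 i.2.1 i.2.2)
      (fun p hp => tor_inv hU hY hdet hsym hD hsU hA p hp) w
    have h8 : evalAt A w (P₁ - P₂) = 0 := by
      unfold evalAt
      rw [← hF2, MvPolynomial.eval_map]
      exact h7
    unfold evalAt at h8 ⊢
    rw [map_sub, sub_eq_zero] at h8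
    exact h8

end Pool.Agent.Results.MP_bbe012_lc.MixedFamilies
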