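import Mathlib
import Pool.Agent.Q29.OvX
import Pool.Agent.Q29.MixInd

/-!
# Equality of periods in mixed families over arbitrary constants: uniform distribution of the multiples of the differences

For real numbers `α < γ` let `s(t) = (t - α) / (γ - α)`. The functions are the periods `K(s)`, `E(s)`, `K(1 - s)` of the
curves of Legendre for `N` pairs `α_j, γ_j` in `(0, 1)` and for `M` pairs `α'_j < 0`, `γ'_j > 1`, the logarithms `log (t + x_i)`,
and the polylogarithms `log t`, `Li_1(t)`, …, `Li_w(t)`. At rational and algebraic `t` they are periods, when the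
`α_j, …, x_i` are algebraic, and polynomials in them with rational coefficients are the periods which are to be compared.
Let `ξ_1, …, ξ_g` be ARBITRARY real numbers, which may depend on `T` and may be as large as `T ^ H`, for instance
`π` and other periods.
Let `F` be a number field of degree at most `m` with an embedding in the complex numbers, and let `X` be any finite set of
numbers of `F` in `[a, b]` which are quotients of integers of `F` with conjugates at most `T`. For all but `C T ^ ε |X| ^ (n - 1)`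
of the `n`-tuples of elements `q_j` of `X` the following holds: every value `y` of a polynomial of partial degrees at most `d` at
the numbers `f_i(q_j)`, where the `f_i` are these functions, whose coefficients are polynomials in the `ξ_i` of partial degrees at most `d` with integer
coefficients at most `T ^ A`, one of the nonconstant ones being at least `T ^ (-H)` in absolute value, has uniformly distributed
multiples at all the scales `M` between `T ^ B` and `T ^ E`: `k y`, `k < M`, also for `k` in the set of the powers of fixed exponent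
or of the prime numbers in a residue class, is uniformly distributed modulo one with an error `M ^ (1 - κ)`. The constants do not
depend on the field, on the set `X` and on the numbers `ξ_i`.
So two periods of this kind, at all but few points, can be equal only for trivial reasons, and moreover their differences
have uniformly distributed multiples.

The proof uses the theorem of helper23 on approximate relations over arbitrary constants at algebraic points (`Q23.AQ.fewR`,
from the starting files `Y124`, `Y771`), the independence of the functions (`Q23.AQ.comb_leg`, `Q23.AQ.comb_li`), an inverse theorem for the sums of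
Weyl and a form of the estimate of Vinogradov for the sums over primes with a power saving (`H373R2/NB`, `W110/HV`).
-/

set_option autoImplicit false

namespace Pool.Agent.Results.MP_bbe012_lc.MultiplesOfPeriods

open Finset Polynomial

/-- The multiples of `x` are uniformly distributed at the scale `M`, with a power saving, along all polynomials of degree
at most `K` and along the primes of all residue classes:

* for every nonzero integer `b` with `|b| ≤ M ^ κ`, every `1 ≤ k ≤ K` and every real polynomial `R` of degree less than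
  `k`, the number of `0 ≤ n < M` with the fractional part of `b x n ^ k + R(n)` in `[u, v)` is `(v - u) M` up to
  `M ^ (1 - κ)`, for all `0 ≤ u ≤ v ≤ 1`;
* for every such `b`, every `1 ≤ d ≤ M ^ κ`, every `r` and every real `β`, the number of primes `p ≤ M` with
  `p ≡ r (mod d)` and the fractional part of `b x p + β` in `[u, v)` is `(v - u)` times the number of all the primes
  `p ≤ M` with `p ≡ r (mod d)`, up to `M ^ (1 - κ)`. -/
def Good (κ : ℝ) (K M : ℕ) (x : ℝ) : Prop :=
  (∀ b : ℤ, b ≠ 0 → |(b : ℝ)| ≤ (M : ℝ) ^ κ → ∀ k : ℕ, 1 ≤ k → k ≤ K → ∀ R : ℝ[X], R.degree < k →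
    ∀ u v : ℝ, 0 ≤ u → u ≤ v → v ≤ 1 →
      |(((range M).filter fun n : ℕ => u ≤ Int.fract (b * x * (n : ℝ) ^ k + R.eval (n : ℝ)) ∧
          Int.fract (b * x * (n : ℝ) ^ k + R.eval (n : ℝ)) < v).card : ℝ) - (v - u) * M| ≤
        (M : ℝ) ^ (1 - κ)) ∧
  (∀ b : ℤ, b ≠ 0 → |(b : ℝ)| ≤ (M : ℝ) ^ κ → ∀ d r : ℕ, 1 ≤ d → (d : ℝ) ≤ (M : ℝ) ^ κ → ∀ β : ℝ,
    ∀ u v : ℝ, 0 ≤ u → u ≤ v → v ≤ 1 →
      |(((range (M + 1)).filter fun p : ℕ => (p.Prime ∧ p ≡ r [MOD d]) ∧
          (u ≤ Int.fract (b * x * p + β) ∧ Int.fract (b * x * p + β) < v)).card : ℝ) -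
        (v - u) * ((range (M + 1)).filter fun p : ℕ => p.Prime ∧ p ≡ r [MOD d]).card| ≤
        (M : ℝ) ^ (1 - κ))

/-- The value at `y` of the polynomial `P` whose coefficients are integer polynomials in the numbers `ξ_1, …, ξ_g`. -/
noncomputable def value {g : ℕ} {τ : Type} (ξ : Fin g → ℝ) (y : τ → ℝ) (P : MvPolynomial τ (MvPolynomial (Fin g) ℤ)) : ℝ :=
  MvPolynomial.eval₂ (MvPolynomial.aeval ξ : MvPolynomial (Fin g) ℤ →ₐ[ℤ] ℝ).toRingHom y P

/-- The polynomials of degree at most `d` in every variable whose coefficients are polynomials in `ξ_1, …, ξ_g` of degree at most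
`d` in every variable with integer coefficients of absolute value at most `R`, with a nonconstant coefficient whose value is at
least `r` in absolute value. -/
def Admissible {g : ℕ} {τ : Type} (ξ : Fin g → ℝ) (d : ℕ) (R r : ℝ) (P : MvPolynomial τ (MvPolynomial (Fin g) ℤ)) : Prop :=
  (∀ j, P.degreeOf j ≤ d) ∧ (∀ e i, (P.coeff e).degreeOf i ≤ d) ∧ (∀ e u, |(((P.coeff e).coeff u : ℤ) : ℝ)| ≤ R) ∧
    ∃ e, e ≠ 0 ∧ r ≤ |MvPolynomial.aeval ξ (P.coeff e)|

/-- The numbers of a number field `F`, with an embedding `ι`, which are in `[a, b]` and are quotients of integers of `F` all of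
whose conjugates have absolute value at most `T`. -/
def IsPoint {F : Type} [Field F] (ι : F →+* ℂ) (a b T : ℝ) (x : F) : Prop :=
  (∃ t : ℝ, a ≤ t ∧ t ≤ b ∧ ι x = t) ∧
    ∃ α β : NumberField.RingOfIntegers F, β ≠ 0 ∧ (∀ φ : F →+* ℂ, ‖φ α‖ ≤ T ∧ ‖φ β‖ ≤ T) ∧ x = α / β

/-- The `n`-tuples `q` of numbers of `X` for which there are an admissible polynomial `P` and an `M` between `T ^ B` and `T ^ E`
such that the multiples of its value at the numbers `f_i(q_j)` are not uniformly distributed at the scale `M`. -/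
def Exceptional {κ F : Type} [Field F] {g : ℕ} (n : ℕ) (f : κ → ℝ → ℝ) (ι : F →+* ℂ) (X : Finset F) (ξ : Fin g → ℝ)
    (d K : ℕ) (A H κ₀ B E T : ℝ) : Set (Fin n → F) :=
  {q | (∀ j, q j ∈ X) ∧
    ∃ P : MvPolynomial (Fin n × κ) (MvPolynomial (Fin g) ℤ), Admissible ξ d (T ^ A) (T ^ (-H)) P ∧
      ∃ M : ℕ, T ^ B ≤ (M : ℝ) ∧ (M : ℝ) ≤ T ^ E ∧ ¬ Good κ₀ K M (value ξ (fun z => f z.2 (ι (q z.1)).re) P)}

/-- The assertion for the functions `f_i` on `[a, b]`. -/
def FewExceptions {κ : Type} (f : κ → ℝ → ℝ) (a b : ℝ) : Prop :=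
  ∀ (m n g d K : ℕ) (H A ε : ℝ), 0 ≤ H → 0 ≤ A → 0 < ε → ∃ B : ℝ, 1 ≤ B ∧ ∀ E : ℝ, ∃ κ₀ : ℝ, 0 < κ₀ ∧ ∃ C T₀ : ℝ,
    ∀ (F : Type) [Field F] [NumberField F], Module.finrank ℚ F ≤ m → ∀ (ι : F →+* ℂ) (ξ : Fin g → ℝ) (T : ℝ), T₀ ≤ T →
      (∀ i, |ξ i| ≤ T ^ H) → ∀ X : Finset F, (∀ x ∈ X, IsPoint ι a b T x) →
        (Exceptional n f ι X ξ d K A H κ₀ B E T).Finite ∧
        ((Exceptional n f ι X ξ d K A H κ₀ B E T).ncard : ℝ) ≤ C * T ^ ε * (X.card : ℝ) ^ (n - 1)

/-- The complete elliptic integral of the first kind, `K(s) = ∫_0^{π/2} (1 - s sin²θ)^(-1/2) dθ`. -/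
noncomputable def K (s : ℝ) : ℝ := ∫ θ in (0 : ℝ)..(Real.pi / 2), 1 / √(1 - s * Real.sin θ ^ 2)

/-- The complete elliptic integral of the second kind, `E(s) = ∫_0^{π/2} (1 - s sin²θ)^(1/2) dθ`. -/
noncomputable def E (s : ℝ) : ℝ := ∫ θ in (0 : ℝ)..(Real.pi / 2), √(1 - s * Real.sin θ ^ 2)

/-- The polylogarithm `Li_k(t) = ∑_{n ≥ 1} t ^ n / n ^ k`. -/
noncomputable def Li (k : ℕ) (t : ℝ) : ℝ := ∑' n : ℕ, t ^ (n + 1) / ((n : ℝ) + 1) ^ k

/-- The functions `K(s)`, `E(s)`, `K(1 - s)`, `s = (t - α) / (γ - α)`. -/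
noncomputable def legendre (α γ : ℝ) (i : Fin 3) (t : ℝ) : ℝ :=
  ![K ((t - α) / (γ - α)), E ((t - α) / (γ - α)), K (1 - (t - α) / (γ - α))] i

/-- The functions `K(s)`, `E(s)`, `K(1 - s)` for `s = (t - α_j) / (γ_j - α_j)` and for `s = (t - α'_j) / (γ'_j - α'_j)`;
`log (t + x_i)`; `log t`, `Li_1(t)`, …, `Li_w(t)`. -/
noncomputable def functions {N M k : ℕ} (w : ℕ) (α γ : Fin N → ℝ) (α' γ' : Fin M → ℝ) (x : Fin k → ℝ)
    (z : (Fin N × Fin 3) ⊕ (((Fin M × Fin 3) ⊕ Fin k) ⊕ Fin (w + 1))) (t : ℝ) : ℝ :=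
  match z with
  | Sum.inl (j, i) => legendre (α j) (γ j) i t
  | Sum.inr (Sum.inl (Sum.inl (j, i))) => legendre (α' j) (γ' j) i t
  | Sum.inr (Sum.inl (Sum.inr i)) => Real.log (t + x i)
  | Sum.inr (Sum.inr k) => if (k : ℕ) = 0 then Real.log t else Li k t

theorem few {κ : Type} [Fintype κ] [DecidableEq κ] (f : κ → ℝ → ℝ) (a b : ℝ)
    (han : ∀ i, AnalyticOnNhd ℝ (f i) (Set.Icc a b)) (hind : Pool.Agent.Y120.AInd f a b) : FewExceptions f a b := by
  intro m n g d K H A ε hH hA hε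
  obtain ⟨B, hB, h⟩ := Pool.Agent.Q29.Eqd.badX_count f a b han hind m n g d K H A ε hH hA hε
  refine ⟨B, hB, fun E => ?_⟩
  obtain ⟨κ₀, C, T₀, hκ₀, hC⟩ := h E
  refine ⟨κ₀, hκ₀, C, T₀, fun F _ _ hF ι ξ T hT hξ X hX => ?_⟩
  have hsub : Exceptional n f ι X ξ d K A H κ₀ B E T ⊆ Pool.Agent.Q29.Eqd.BadX n g d K ι X f (T ^ A) (T ^ (-H)) κ₀ (T ^ B) (T ^ E) ξ := by
    rintro q ⟨hq, P, ⟨hP1, hP2, hP3, hP4⟩, hbad⟩
    exact ⟨hq, P, hP1, hP2, hP3, hP4, hbad⟩
  have hfin := Pool.Agent.Q29.Eqd.badX_fin n g d K ι X f (T ^ A) (T ^ (-H)) κ₀ (T ^ B) (T ^ E) ξ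
  refine ⟨hfin.subset hsub, le_trans ?_ (hC F hF ι ξ T hT hξ X hX)⟩
  exact_mod_cast Set.ncard_le_ncard hsub hfin

/-- Let `α_1 > ⋯ > α_N > 0`, `γ_1 < ⋯ < γ_N < 1`, `0 > α'_1 > ⋯ > α'_M`, `1 < γ'_1 < ⋯ < γ'_M`, let `x_1, …, x_k` be distinct
positive numbers greater than `-α'_j` for all `j`, and let `0 < a < b < 1` and `α_1 < a`, `b < γ_1`. -/
theorem result {N M k : ℕ} (w : ℕ) (α γ : Fin N → ℝ) (hα : StrictAnti α) (hγ : StrictMono γ) (hα0 : ∀ j, 0 < α j)
    (hγ1 : ∀ j, γ j < 1) (α' γ' : Fin M → ℝ) (hα' : StrictAnti α') (hγ' : StrictMono γ') (hα'0 : ∀ j, α' j < 0)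
    (hγ'1 : ∀ j, 1 < γ' j) (x : Fin k → ℝ) (hx : Function.Injective x) (hx0 : ∀ i, 0 < x i) (hx' : ∀ i j, -α' j < x i)
    (a b : ℝ) (ha : 0 < a) (hab : a < b) (hb : b < 1) (h : ∀ j, α j < a ∧ b < γ j) :
    FewExceptions (functions w α γ α' γ' x) a b := by
  obtain ⟨c, hc, hcα, hcx⟩ : ∃ c : ℝ, c < 0 ∧ (∀ j, c < α' j) ∧ ∀ i, 0 < c + x i := by
    obtain ⟨η, hη1, hη2, hη⟩ : ∃ η : ℝ, (∀ i, η < x i) ∧ (∀ i j, η < α' j + x i) ∧ 0 < η := by
      have h1 : ∀ i : Fin k, ∀ᶠ η : ℝ in nhdsWithin 0 (Set.Ioi 0), η < x i := fun i =>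
        (Filter.Tendsto.eventually_lt_const (hx0 i) (Filter.tendsto_id.mono_left nhdsWithin_le_nhds))
      have h2 : ∀ (i : Fin k) (j : Fin M), ∀ᶠ η : ℝ in nhdsWithin 0 (Set.Ioi 0), η < α' j + x i := fun i j =>
        (Filter.Tendsto.eventually_lt_const (show 0 < α' j + x i by linarith [hx' i j])
          (Filter.tendsto_id.mono_left nhdsWithin_le_nhds))
      have h3 : ∀ᶠ η : ℝ in nhdsWithin 0 (Set.Ioi 0), 0 < η := self_mem_nhdsWithin
      exact ((Filter.eventually_all.2 h1).and ((Filter.eventually_all.2 fun i =>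
        Filter.eventually_all.2 (h2 i)).and h3)).exists
    classical
    have hne : (insert 0 (Finset.univ.image α')).Nonempty := ⟨0, Finset.mem_insert_self _ _⟩
    refine ⟨(insert 0 (Finset.univ.image α')).min' hne - η, ?_, fun j => ?_, fun i => ?_⟩
    · have := Finset.min'_le (insert 0 (Finset.univ.image α')) 0 (Finset.mem_insert_self _ _)
      linarith
    · have := Finset.min'_le (insert 0 (Finset.univ.image α')) (α' j)
        (Finset.mem_insert_of_mem (Finset.mem_image_of_mem _ (Finset.mem_univ j)))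
      linarith
    · have h1 := Finset.min'_mem (insert 0 (Finset.univ.image α')) hne
      rw [Finset.mem_insert] at h1
      rcases h1 with h1 | h1
      · rw [h1]
        linarith [hη1 i]
      · obtain ⟨j, _, h2⟩ := Finset.mem_image.1 h1
        rw [← h2]
        linarith [hη2 i j]
  have hl : ∀ (α γ : ℝ), α < γ → ∀ i t, legendre α γ i t = TH818.AP.KC α γ i t := by
    intro α γ hαγ i t
    have hne : γ - α ≠ 0 := by linarith
    fin_cases i
    · rfl
    · rfl
    · show K (1 - (t - α) / (γ - α)) = TH818.AR.KK ((γ - t) / (γ - α))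
      have : 1 - (t - α) / (γ - α) = (γ - t) / (γ - α) := by
        field_simp
        ring
      rw [this]
      rfl
  have heq : functions w α γ α' γ' x = Sum.elim (fun z : Fin N × Fin 3 => TH818.AP.KC (α z.1) (γ z.1) z.2)
        (Sum.elim (Sum.elim (fun z : Fin M × Fin 3 => TH818.AP.KC (α' z.1) (γ' z.1) z.2) (TH659.AQ.lf x))
          (fun k : Fin (w + 1) => TH818.AP.pl (k : ℕ))) := by
    funext z t
    rcases z with ⟨j, i⟩ | ((⟨j, i⟩ | i) | k)
    · exact hl _ _ ((h j).1.trans (hab.trans (h j).2)) i t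
    · exact hl _ _ (by linarith [hα'0 j, hγ'1 j]) i t
    · rfl
    · rfl
  rw [heq]
  exact few _ a b
    (Pool.Agent.Q29.MixInd.an_real w α γ α' γ' hα'0 hγ'1 x c hc hcx a b ha hab hb h)
    (Pool.Agent.Q29.MixInd.ind_real w α γ hα hγ hα0 hγ1 α' γ' hα' hγ' hα'0 hγ'1 x hx c hc hcα hcx a b ha hab hb h)

end Pool.Agent.Results.MP_bbe012_lc.MultiplesOfPeriods
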