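import Pool.Agent.Results.MP_bbe012_lc.EqualityOverConstants
import Pool.Agent.Q229.RAE

/-!
# Equality of periods: the errorless test decides at ALL rational parameters near almost every real point

We consider polynomial expressions in `π` and in the periods `K`, `E` of Legendre curves, logarithms and polylogarithms at
rational parameters `q_1, …, q_n`. The starting file `EqualityOverConstants` has an errorless test for the equality of the values
of two expressions, which gives an answer at all but `T^(2(n-1)+ε)` of the `n`-tuples of parameters of height `T`. Here we find by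
coverings: near all real points outside a set of small Hausdorff dimension (dimension zero for `n = 1`; for `τ = 2` this concerns
all convergents of almost every real number) the test gives the right answer at ALL rational parameters.
-/

set_option autoImplicit false

open MeasureTheory Filter
open Pool.Agent.Results.MP_bbe012_lc.EqualityOverConstants (Name value test NoAnswer)

namespace Pool.Agent.Results.MP_bbe012_lc.RationalsNearRealPoints

/-- no constants besides `π` -/
def noConstants : Fin 0 → ℂ := fun i => i.elim0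

/-- **Theorem.** Let `n ≥ 1`, `α_1 > ⋯ > α_N > 0`, `γ_1 < ⋯ < γ_N < 1` and `0 < a < b < 1` with `α_1 < a`, `b < γ_1`. For every
`τ > 0` there is a set `Z ⊂ ℝ^n` of Hausdorff dimension at most `2 (n - 1) / τ` (dimension `0` for `n = 1`), and of Lebesgue measure
zero if `2 (n - 1) < n τ`, such that for all `x ∉ Z`, all `d`, `A`, some `B` and all sufficiently large `T` the following holds
for ALL rational points `q` in `[a, b]^n` with denominators at most `T` and `|x_l - q_l| ≤ T ^ (-τ)`: for all pairs of expressions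
of degree at most `d` in each variable with coefficients at most `T ^ A` in absolute value, and all approximations of their
values at `q` with error at most `T ^ (-B)`, the test answers `true` and the values are equal, or it answers `false` and
the values are different. -/
theorem result {N : ℕ} (n w : ℕ) (hn : 1 ≤ n) (α γ : Fin N → ℝ) (hα : StrictAnti α) (hγ : StrictMono γ)
    (hα0 : ∀ j, 0 < α j) (hγ1 : ∀ j, γ j < 1) (a b : ℝ) (ha : 0 < a) (hab : a < b) (hb : b < 1)
    (h : ∀ j, α j < a ∧ b < γ j) (τ : ℝ) (hτ : 0 < τ) :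
    ∃ Z : Set (Fin n → ℝ), dimH Z ≤ ENNReal.ofReal (2 * ((n : ℝ) - 1) / τ) ∧
      (2 * ((n : ℝ) - 1) < n * τ → volume Z = 0) ∧
      ∀ x : Fin n → ℝ, x ∉ Z → ∀ (d : ℕ) (A : ℝ), ∃ B : ℝ, ∀ᶠ T : ℝ in atTop, ∀ q : Fin n → ℚ,
        (∀ l, a ≤ q l ∧ (q l : ℝ) ≤ b ∧ ((q l).den : ℝ) ≤ T ∧ |x l - q l| ≤ T ^ (-τ)) →
        ∀ P₁ P₂ : MvPolynomial (Name 0 N n w) ℤ, (∀ z, P₁.degreeOf z ≤ d ∧ P₂.degreeOf z ≤ d) →
          (∀ s, |((P₁.coeff s : ℤ) : ℝ)| ≤ T ^ A ∧ |((P₂.coeff s : ℤ) : ℝ)| ≤ T ^ A) →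
          ∀ v₁ v₂ : ℂ, ‖v₁ - value α γ noConstants q P₁‖ ≤ T ^ (-B) → ‖v₂ - value α γ noConstants q P₂‖ ≤ T ^ (-B) →
          (test d noConstants P₁ P₂ v₁ v₂ (T ^ (-B)) = some true ∧
            value α γ noConstants q P₁ = value α γ noConstants q P₂) ∨
          (test d noConstants P₁ P₂ v₁ v₂ (T ^ (-B)) = some false ∧
            value α γ noConstants q P₁ ≠ value α γ noConstants q P₂) := by
  obtain ⟨Z, h1, h2, h3⟩ := Pool.Agent.Q229.RA.eps hn
    (fun d A B T => NoAnswer N n w d α γ noConstants a b A T (T ^ (-B)))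
    (by
      rintro d A B T T' q hA hT hTT h2T hB ⟨h1, P₁, P₂, hdeg, hcoef, v₁, v₂, hv₁, hv₂, htest⟩
      have hδ : T ^ (-(max B 0 + 1)) ≤ T' ^ (-B) := Pool.Agent.Q229.RA.pow_le hT hTT h2T hB
      have hTA : T ^ A ≤ T' ^ A := Real.rpow_le_rpow (by linarith) hTT hA
      refine ⟨fun l => ⟨(h1 l).1, (h1 l).2.1, (h1 l).2.2.trans hTT⟩, P₁, P₂, hdeg,
        fun s => ⟨(hcoef s).1.trans hTA, (hcoef s).2.trans hTA⟩, v₁, v₂, hv₁.trans hδ, hv₂.trans hδ, ?_⟩
      unfold test at htest ⊢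
      split_ifs at htest with h3 h4
      rw [if_neg h3, if_neg (by linarith [not_lt.1 h4])])
    (by
      rintro d A A' B T q hAA hT ⟨h1, P₁, P₂, hdeg, hcoef, v₁, v₂, hv₁, hv₂, htest⟩
      have hTA : T ^ A ≤ T ^ A' := Real.rpow_le_rpow_of_exponent_le hT hAA
      exact ⟨h1, P₁, P₂, hdeg, fun s => ⟨(hcoef s).1.trans hTA, (hcoef s).2.trans hTA⟩, v₁, v₂, hv₁, hv₂, htest⟩)
    (by
      intro d A ε hA hε
      obtain ⟨B, C, hBC⟩ := (EqualityOverConstants.result 0 n w d hn α γ hα hγ hα0 hγ1 a b ha hab hb h A ε hε).2.2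
      exact ⟨B, C, fun T hT => hBC T hT noConstants⟩) τ hτ
  refine ⟨Z, h1, h2, fun x hx d A => ?_⟩
  obtain ⟨B, hB⟩ := h3 x hx d A
  refine ⟨B, ?_⟩
  filter_upwards [hB] with T hT q hq P₁ P₂ hdeg hcoef v₁ v₂ hv₁ hv₂
  have h4 := hT q (fun l => (hq l).2.2.2)
  have h5 : test d noConstants P₁ P₂ v₁ v₂ (T ^ (-B)) ≠ none := by
    intro h6
    exact h4 ⟨fun l => ⟨(hq l).1, (hq l).2.1, (hq l).2.2.1⟩, P₁, P₂, hdeg, hcoef, v₁, v₂, hv₁, hv₂, h6⟩
  have h6 := (EqualityOverConstants.result 0 n w d hn α γ hα hγ hα0 hγ1 a b ha hab hb h A 1 one_pos).1 noConstants q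
    (fun l => ⟨(hq l).1, (hq l).2.1⟩) P₁ P₂ v₁ v₂ (T ^ (-B)) hv₁ hv₂
  rcases h7 : test d noConstants P₁ P₂ v₁ v₂ (T ^ (-B)) with _ | _ | _
  · exact absurd h7 h5
  · exact Or.inr ⟨rfl, h6.2 h7⟩
  · exact Or.inl ⟨rfl, h6.1 h7⟩

end Pool.Agent.Results.MP_bbe012_lc.RationalsNearRealPoints
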